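import Mathlib

set_option autoImplicit false
set_option linter.unusedSectionVars false

/-!
# A hierarchical weight function
-/

namespace Pool.Agent.X86.DC.Fn

open Filter Topology

/-- The auxiliary integers `B_k` in terms of `P_k`. -/
def Bf (k p : ℕ) : ℕ := 8 * (k + 1) * 5 ^ k * p

/-- The periods. -/
def P (M : ℕ) : ℕ → ℕ
  | 0 => 1
  | k + 1 => (Bf k (P M k)) ^ (k + 1 + M)

variable (M : ℕ)

/-- `B_k = 8 (k+1) 5^k P_k`. -/
def B (k : ℕ) : ℕ := Bf k (P M k)

lemma P_zero : P M 0 = 1 := rfl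
lemma P_succ (k : ℕ) : P M (k + 1) = (B M k) ^ (k + 1 + M) := rfl

lemma P_pos (k : ℕ) : 0 < P M k := by
  induction k with
  | zero => exact one_pos
  | succ k ih =>
    rw [P_succ]
    unfold B Bf
    positivity

lemma B_pos (k : ℕ) : 0 < B M k := by
  have := P_pos M k
  unfold B Bf; positivity

lemma B_dvd (k : ℕ) : 8 * P M k ∣ B M k := ⟨(k + 1) * 5 ^ k, by unfold B Bf; ring⟩

lemma B_dvd_P (k : ℕ) : B M k ∣ P M (k + 1) := by
  rw [P_succ]; exact dvd_pow_self _ (by omega)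

lemma eight_dvd (k : ℕ) : 8 * P M k ∣ P M (k + 1) := (B_dvd M k).trans (B_dvd_P M k)

lemma P_dvd_succ (k : ℕ) : P M k ∣ P M (k + 1) := (Dvd.intro_left 8 rfl).trans (eight_dvd M k)

lemma P_dvd {i k : ℕ} (h : i ≤ k) : P M i ∣ P M k := by
  induction k, h using Nat.le_induction with
  | base => exact dvd_rfl
  | succ n _ ih => exact ih.trans (P_dvd_succ M n)

lemma eight_mul_le (k : ℕ) : 8 * P M k ≤ P M (k + 1) := Nat.le_of_dvd (P_pos M _) (eight_dvd M k)

lemma B_le_P (k : ℕ) : B M k ≤ P M (k + 1) := Nat.le_of_dvd (P_pos M _) (B_dvd_P M k)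

lemma P_mono : Monotone (P M) :=
  monotone_nat_of_le_succ fun k => by have := eight_mul_le M k; omega

lemma lt_P (k : ℕ) : k < P M k := by
  induction k with
  | zero => exact one_pos
  | succ k ih => have := eight_mul_le M k; omega

lemma even_P (k : ℕ) : 2 ∣ P M (k + 1) := ⟨P M (k + 1) / 2, by
  have h : 2 ∣ P M (k + 1) := (Dvd.intro (4 * P M k) (by ring)).trans (eight_dvd M k)
  omega⟩

lemma one_le_P (k : ℕ) : (1 : ℝ) ≤ P M k := by exact_mod_cast P_pos M k

variable (lam : ℝ)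

/-- The widths. -/
noncomputable def W (k : ℕ) : ℝ := (P M (k + 1) : ℝ) ^ lam / (8 * (k + 1))

/-- The slopes. -/
noncomputable def r (k : ℕ) : ℝ := 5 ^ k / W M lam k

lemma W_pos (k : ℕ) : 0 < W M lam k := by
  have := P_pos M (k + 1)
  unfold W; positivity

lemma r_pos (k : ℕ) : 0 < r M lam k := by
  have := W_pos M lam k
  unfold r; positivity

lemma inv_r (k : ℕ) : 1 / r M lam k = (P M (k + 1) : ℝ) ^ lam * P M k / B M k := by
  have h1 := P_pos M (k + 1)
  have h2 := P_pos M k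
  have h3 : (0 : ℝ) < (P M (k + 1) : ℝ) ^ lam := by positivity
  have h4 : ((B M k : ℕ) : ℝ) = 8 * (k + 1) * 5 ^ k * P M k := by unfold B Bf; push_cast; ring
  unfold r W
  rw [h4]
  have h5 : (P M k : ℝ) ≠ 0 := by exact_mod_cast h2.ne'
  field_simp

section bounds

variable {lam}
variable (h0 : 0 < lam) (h1 : lam ≤ 1) (hM : 4 / lam ^ 2 ≤ M)

include h0 h1 hM

lemma P_pow_ge (k : ℕ) : (B M k : ℝ) ^ 2 * (B M k : ℝ) ^ (1 / lam) ≤ (P M (k + 1) : ℝ) ^ lam := by
  have hB : (1 : ℝ) ≤ B M k := by exact_mod_cast B_pos M k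
  have hB0 : (0 : ℝ) < B M k := by linarith
  rw [P_succ]
  push_cast
  rw [← Real.rpow_natCast, ← Real.rpow_natCast, ← Real.rpow_mul hB0.le, ← Real.rpow_add hB0]
  refine Real.rpow_le_rpow_of_exponent_le hB ?_
  have h2 : 4 / lam ≤ M * lam := by
    have : 4 / lam ^ 2 * lam ≤ M * lam := by gcongr
    have e : 4 / lam ^ 2 * lam = 4 / lam := by field_simp
    rwa [e] at this
  have h3 : 2 + 1 / lam ≤ 4 / lam := by
    have : 1 ≤ 1 / lam := (one_le_div h0).2 h1
    have e : 4 / lam = 4 * (1 / lam) := by ring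
    rw [e]; linarith
  have h4 : (M : ℝ) * lam ≤ ((k + 1 + M : ℕ) : ℝ) * lam := by
    push_cast; nlinarith [(by positivity : (0 : ℝ) ≤ k)]
  push_cast at h4 ⊢
  linarith

lemma inv_r_ge (k : ℕ) : (B M k : ℝ) * (B M k : ℝ) ^ (1 / lam) * P M k ≤ 1 / r M lam k := by
  have hB0 : (0 : ℝ) < B M k := by exact_mod_cast B_pos M k
  have hP : (0 : ℝ) < P M k := by exact_mod_cast P_pos M k
  rw [inv_r, le_div_iff₀ hB0]
  have := P_pow_ge M h0 h1 hM k
  calc (B M k : ℝ) * (B M k : ℝ) ^ (1 / lam) * P M k * B M k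
      = ((B M k : ℝ) ^ 2 * (B M k : ℝ) ^ (1 / lam)) * P M k := by ring
    _ ≤ (P M (k + 1) : ℝ) ^ lam * P M k := by gcongr

lemma one_le_Brpow (k : ℕ) : (1 : ℝ) ≤ (B M k : ℝ) ^ (1 / lam) := by
  have hB : (1 : ℝ) ≤ B M k := by exact_mod_cast B_pos M k
  exact Real.one_le_rpow hB (by positivity)

lemma two_pow_le_B (k : ℕ) : (2 : ℝ) ^ k * P M k ≤ B M k := by
  have h4 : ((B M k : ℕ) : ℝ) = 8 * (k + 1) * 5 ^ k * P M k := by unfold B Bf; push_cast; ring
  have hP : (0 : ℝ) < P M k := by exact_mod_cast P_pos M k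
  rw [h4]
  have h5 : (2 : ℝ) ^ k ≤ 5 ^ k := by gcongr; norm_num
  have h6 : (0 : ℝ) < 5 ^ k := by positivity
  have h7 : (2 : ℝ) ^ k ≤ 8 * (k + 1) * 5 ^ k := by nlinarith [(by positivity : (0 : ℝ) ≤ k)]
  gcongr

/-- `r_k P_k ≤ 2^{-k}`. -/
lemma r_mul_P (k : ℕ) : r M lam k * P M k ≤ (1 / 2) ^ k := by
  have h2 := inv_r_ge M h0 h1 hM k
  have h3 := one_le_Brpow M h0 h1 hM k
  have h4 := two_pow_le_B M h0 h1 hM k
  have hr := r_pos M lam k
  have hP : (1 : ℝ) ≤ P M k := one_le_P M k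
  have hB0 : (0 : ℝ) < B M k := by exact_mod_cast B_pos M k
  have h5 : (2 : ℝ) ^ k * P M k ≤ 1 / r M lam k := by
    calc (2 : ℝ) ^ k * P M k ≤ B M k := h4
      _ ≤ (B M k : ℝ) * ((B M k : ℝ) ^ (1 / lam) * P M k) := by
          refine le_mul_of_one_le_right hB0.le ?_
          nlinarith
      _ = (B M k : ℝ) * (B M k : ℝ) ^ (1 / lam) * P M k := by ring
      _ ≤ _ := h2
  rw [le_div_iff₀ hr] at h5
  have h6 : (0 : ℝ) < 2 ^ k := by positivity
  rw [one_div, inv_pow, ← one_div, le_div_iff₀ h6]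
  linarith

lemma r_le (k : ℕ) : r M lam k ≤ (1 / 2) ^ k := by
  have := r_mul_P M h0 h1 hM k
  have hP : (1 : ℝ) ≤ P M k := one_le_P M k
  have hr := r_pos M lam k
  nlinarith

lemma B_le_inv_r_pow (k : ℕ) : (B M k : ℝ) ≤ (1 / r M lam k) ^ lam := by
  have h2 := inv_r_ge M h0 h1 hM k
  have hB : (1 : ℝ) ≤ B M k := by exact_mod_cast B_pos M k
  have hP : (1 : ℝ) ≤ P M k := one_le_P M k
  have h3 := one_le_Brpow M h0 h1 hM k
  have h4 : (B M k : ℝ) ^ (1 / lam) ≤ 1 / r M lam k := by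
    refine le_trans ?_ h2
    have h5 : (B M k : ℝ) ^ (1 / lam) ≤ (B M k : ℝ) * (B M k : ℝ) ^ (1 / lam) := by nlinarith
    nlinarith
  calc (B M k : ℝ) = ((B M k : ℝ) ^ (1 / lam)) ^ lam := by
        rw [← Real.rpow_mul (by positivity), one_div, inv_mul_cancel₀ h0.ne', Real.rpow_one]
    _ ≤ _ := Real.rpow_le_rpow (by positivity) h4 h0.le

lemma P_pow_le (k : ℕ) : (P M (k + 1) : ℝ) ^ lam ≤ P M (k + 1) := by
  have hP : (1 : ℝ) ≤ P M (k + 1) := one_le_P M _
  calc (P M (k + 1) : ℝ) ^ lam ≤ (P M (k + 1) : ℝ) ^ (1 : ℝ) :=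
        Real.rpow_le_rpow_of_exponent_le hP h1
    _ = _ := Real.rpow_one _

lemma W_le (k : ℕ) : W M lam k ≤ P M (k + 1) / 8 := by
  have h2 := P_pow_le M h0 h1 hM k
  unfold W
  have hP : (0 : ℝ) < (P M (k + 1) : ℝ) ^ lam := by
    have := P_pos M (k + 1); positivity
  calc (P M (k + 1) : ℝ) ^ lam / (8 * (k + 1)) ≤ (P M (k + 1) : ℝ) ^ lam / 8 := by
        apply div_le_div_of_nonneg_left hP.le (by norm_num)
        nlinarith [(by positivity : (0 : ℝ) ≤ k)]
    _ ≤ _ := by gcongr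

lemma inv_r_eq (k : ℕ) : 1 / r M lam k = W M lam k / 5 ^ k := by
  have := W_pos M lam k
  unfold r; field_simp

lemma inv_r_le (k : ℕ) : 1 / r M lam k ≤ P M (k + 1) := by
  rw [inv_r_eq M h0 h1 hM]
  have h2 := W_le M h0 h1 hM k
  have h3 := W_pos M lam k
  have h4 : (1 : ℝ) ≤ 5 ^ k := one_le_pow₀ (by norm_num)
  have hP : (1 : ℝ) ≤ P M (k + 1) := one_le_P M _
  calc W M lam k / 5 ^ k ≤ W M lam k := div_le_self h3.le h4
    _ ≤ P M (k + 1) / 8 := h2
    _ ≤ _ := by linarith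

lemma inv_r_le8 (k : ℕ) : 1 / r M lam k ≤ P M (k + 1) / 8 := by
  rw [inv_r_eq M h0 h1 hM]
  have h2 := W_le M h0 h1 hM k
  have h3 := W_pos M lam k
  have h4 : (1 : ℝ) ≤ 5 ^ k := one_le_pow₀ (by norm_num)
  exact (div_le_self h3.le h4).trans h2

lemma P_le_inv_r (k : ℕ) : (P M k : ℝ) ≤ 1 / r M lam k := by
  have h2 := r_mul_P M h0 h1 hM k
  have hr := r_pos M lam k
  rw [le_div_iff₀ hr]
  have : ((1 : ℝ) / 2) ^ k ≤ 1 := pow_le_one₀ (by norm_num) (by norm_num)
  linarith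

lemma W_ge (k : ℕ) : (5 : ℝ) ^ k ≤ W M lam k := by
  have h2 := r_le M h0 h1 hM k
  have h3 := r_pos M lam k
  have h4 := inv_r_eq M h0 h1 hM k
  have h5 : (1 : ℝ) ≤ 1 / r M lam k := by
    rw [le_div_iff₀ h3, one_mul]
    exact h2.trans (pow_le_one₀ (by norm_num) (by norm_num))
  rw [h4, le_div_iff₀ (by positivity), one_mul] at h5
  exact h5

/-- growth -/
lemma growth {lam' : ℝ} (hl : lam' < lam) {k : ℕ} (hk : 1 ≤ (k + 1 : ℝ) * (lam - lam')) :
    (P M (k + 1) : ℝ) ^ lam' ≤ 1 / (r M lam k * P M k) := by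
  have hB : (1 : ℝ) ≤ B M k := by exact_mod_cast B_pos M k
  have hB0 : (0 : ℝ) < B M k := by linarith
  have hP : (0 : ℝ) < P M k := by exact_mod_cast P_pos M k
  have hP1 : (0 : ℝ) < P M (k + 1) := by exact_mod_cast P_pos M (k + 1)
  have e : 1 / (r M lam k * P M k) = (P M (k + 1) : ℝ) ^ lam / B M k := by
    have e1 : 1 / (r M lam k * P M k) = (1 / r M lam k) / P M k := by
      rw [div_div]
    rw [e1, inv_r]
    field_simp
  rw [e, le_div_iff₀ hB0]
  have h3 : (B M k : ℝ) ≤ (P M (k + 1) : ℝ) ^ (lam - lam') := by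
    rw [P_succ]
    push_cast
    rw [← Real.rpow_natCast, ← Real.rpow_mul hB0.le]
    calc (B M k : ℝ) = (B M k : ℝ) ^ (1 : ℝ) := (Real.rpow_one _).symm
      _ ≤ _ := Real.rpow_le_rpow_of_exponent_le hB (by
          push_cast
          have : 0 ≤ (M : ℝ) * (lam - lam') := by
            have : 0 ≤ lam - lam' := by linarith
            positivity
          nlinarith)
  calc (P M (k + 1) : ℝ) ^ lam' * B M k
      ≤ (P M (k + 1) : ℝ) ^ lam' * (P M (k + 1) : ℝ) ^ (lam - lam') := by gcongr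
    _ = (P M (k + 1) : ℝ) ^ lam := by rw [← Real.rpow_add hP1]; congr 1; ring

end bounds

/-! ### The tents -/

/-- Distance to the middle of the period. -/
noncomputable def dl (k : ℕ) (s : ℝ) : ℝ :=
  ‖((s - (P M (k + 1) : ℝ) / 2 : ℝ) : AddCircle ((P M (k + 1) : ℝ)))‖

/-- The `k`-th tent. -/
noncomputable def chi (k : ℕ) (s : ℝ) : ℝ := max 0 (5 ^ k - r M lam k * dl M k s)

lemma dl_nonneg (k : ℕ) (s : ℝ) : 0 ≤ dl M k s := norm_nonneg _

lemma norm_coe_le (p x : ℝ) (hp : 0 < p) : ‖(x : AddCircle p)‖ ≤ |x| := by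
  rcases le_or_gt |x| (|p| / 2) with h | h
  · exact ((AddCircle.norm_coe_eq_abs_iff p hp.ne').2 h).le
  · exact (AddCircle.norm_le_half_period p hp.ne').trans h.le

lemma dl_sub_le (k : ℕ) (s s' : ℝ) : |dl M k s - dl M k s'| ≤ |s - s'| := by
  unfold dl
  refine (abs_norm_sub_norm_le _ _).trans ?_
  rw [← AddCircle.coe_sub]
  have e : (s - (P M (k + 1) : ℝ) / 2) - (s' - (P M (k + 1) : ℝ) / 2) = s - s' := by ring
  rw [e]
  exact norm_coe_le _ _ (by exact_mod_cast P_pos M (k + 1))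

lemma dl_mid (k : ℕ) : dl M k ((P M (k + 1) : ℝ) / 2) = 0 := by
  unfold dl; rw [sub_self]; simp

lemma dl_left (k : ℕ) {s : ℝ} (h0 : 0 ≤ s) (h1 : s ≤ (P M (k + 1) : ℝ) / 2) :
    dl M k s = (P M (k + 1) : ℝ) / 2 - s := by
  have hp : (0 : ℝ) < P M (k + 1) := by exact_mod_cast P_pos M (k + 1)
  unfold dl
  rw [(AddCircle.norm_coe_eq_abs_iff _ hp.ne').2 ?_]
  · rw [abs_of_nonpos (by linarith)]; ring
  · rw [abs_of_nonpos (by linarith), abs_of_pos hp]; linarith

lemma dl_period (k : ℕ) (s : ℝ) {t : ℕ} (ht : P M (k + 1) ∣ t) : dl M k (s + t) = dl M k s := by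
  obtain ⟨m, rfl⟩ := ht
  unfold dl
  have e : (s + ((P M (k + 1) * m : ℕ) : ℝ) - (P M (k + 1) : ℝ) / 2) =
      (s - (P M (k + 1) : ℝ) / 2) + m • (P M (k + 1) : ℝ) := by
    rw [nsmul_eq_mul]; push_cast; ring
  rw [e, AddCircle.coe_add, AddCircle.coe_nsmul, AddCircle.coe_period, smul_zero, add_zero]

lemma chi_nonneg (k : ℕ) (s : ℝ) : 0 ≤ chi M lam k s := le_max_left _ _

lemma chi_le (k : ℕ) (s : ℝ) : chi M lam k s ≤ 5 ^ k := by
  refine max_le (by positivity) ?_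
  have := mul_nonneg (r_pos M lam k).le (dl_nonneg M k s)
  linarith

lemma chi_mid (k : ℕ) : chi M lam k ((P M (k + 1) : ℝ) / 2) = 5 ^ k := by
  unfold chi
  rw [dl_mid, mul_zero, sub_zero, max_eq_right (by positivity)]

lemma chi_period (k : ℕ) (s : ℝ) {t : ℕ} (ht : P M (k + 1) ∣ t) :
    chi M lam k (s + t) = chi M lam k s := by
  unfold chi; rw [dl_period M k s ht]

lemma chi_sub_le (k : ℕ) (s s' : ℝ) : chi M lam k s - chi M lam k s' ≤ r M lam k * |s - s'| := by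
  have h := dl_sub_le M k s s'
  have hr := r_pos M lam k
  have h2 : dl M k s' - |s - s'| ≤ dl M k s := by
    have := neg_abs_le (dl M k s - dl M k s'); linarith
  have h3 : r M lam k * (dl M k s' - |s - s'|) ≤ r M lam k * dl M k s := by gcongr
  have h4 : 0 ≤ r M lam k * |s - s'| := by positivity
  have : chi M lam k s ≤ chi M lam k s' + r M lam k * |s - s'| := by
    unfold chi
    refine max_le (by have := le_max_left 0 (5 ^ k - r M lam k * dl M k s'); linarith) ?_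
    have := le_max_right 0 (5 ^ k - r M lam k * dl M k s')
    nlinarith
  linarith

lemma chi_sub_le' (k : ℕ) (s : ℝ) {t : ℝ} (ht : 0 ≤ t) :
    chi M lam k (s + t) - chi M lam k s ≤ r M lam k * t := by
  have := chi_sub_le M lam k (s + t) s
  rwa [add_sub_cancel_left, abs_of_nonneg ht] at this

section bounds2

variable {lam}
variable (h0 : 0 < lam) (h1 : lam ≤ 1) (hM : 4 / lam ^ 2 ≤ M)

include h0 h1 hM

lemma chi_zero (k : ℕ) {s : ℝ} (hs0 : 0 ≤ s) (hs : s ≤ (P M (k + 1) : ℝ) / 2 - W M lam k) :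
    chi M lam k s = 0 := by
  have hW := W_pos M lam k
  unfold chi
  refine max_eq_left ?_
  rw [dl_left M k hs0 (by linarith), sub_nonpos]
  have hr := r_pos M lam k
  calc (5 : ℝ) ^ k = r M lam k * W M lam k := by unfold r; field_simp
    _ ≤ r M lam k * ((P M (k + 1) : ℝ) / 2 - s) := by gcongr; linarith

lemma chi_zero' (k : ℕ) {s : ℝ} (hs0 : 0 ≤ s) (hs : s ≤ (P M (k + 1) : ℝ) * (3 / 8)) :
    chi M lam k s = 0 := by
  refine chi_zero M h0 h1 hM k hs0 ?_
  have := W_le M h0 h1 hM k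
  linarith

end bounds2

/-- The weight exponent. -/
noncomputable def Lam (s : ℝ) : ℝ := ∑' k, chi M lam k s

section bounds3

variable {lam}
variable (h0 : 0 < lam) (h1 : lam ≤ 1) (hM : 4 / lam ^ 2 ≤ M)

include h0 h1 hM

lemma Lam_eq {K : ℕ} {s : ℝ} (hs0 : 0 ≤ s) (hs : s ≤ (P M (K + 1) : ℝ) * (3 / 8)) :
    Lam M lam s = ∑ k ∈ Finset.range K, chi M lam k s := by
  unfold Lam
  refine tsum_eq_sum fun k hk => ?_
  rw [Finset.mem_range, not_lt] at hk
  refine chi_zero' M h0 h1 hM k hs0 (hs.trans ?_)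
  have : (P M (K + 1) : ℝ) ≤ P M (k + 1) := by exact_mod_cast P_mono M (by omega)
  gcongr

lemma exists_K (s : ℝ) (k : ℕ) : ∃ K, k ≤ K ∧ s ≤ (P M (K + 1) : ℝ) * (3 / 8) := by
  obtain ⟨m, hm⟩ := exists_nat_gt (s * 8 / 3)
  refine ⟨max k m, le_max_left _ _, ?_⟩
  have h2 : ((max k m + 1 : ℕ) : ℝ) < P M (max k m + 1) := by exact_mod_cast lt_P M _
  have h3 : (m : ℝ) ≤ ((max k m + 1 : ℕ) : ℝ) := by
    have : m ≤ max k m + 1 := (le_max_right _ _).trans (Nat.le_succ _)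
    exact_mod_cast this
  linarith

lemma Lam_nonneg (s : ℝ) : 0 ≤ Lam M lam s := tsum_nonneg fun k => chi_nonneg M lam k s

/-- Comparison through a bound of the terms. -/
lemma Lam_sub_le_sum {s t : ℝ} (hs : 0 ≤ s) (ht : 0 ≤ t) (k : ℕ) : ∃ K, k ≤ K ∧
    Lam M lam (s + t) - Lam M lam s =
      ∑ i ∈ Finset.range K, (chi M lam i (s + t) - chi M lam i s) := by
  obtain ⟨K, hK, hK2⟩ := exists_K M h0 h1 hM (s + t) k
  refine ⟨K, hK, ?_⟩
  rw [Lam_eq M h0 h1 hM (K := K) (by positivity) hK2,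
    Lam_eq M h0 h1 hM (K := K) hs (by linarith), Finset.sum_sub_distrib]

lemma sum_half (K : ℕ) : ∑ i ∈ Finset.range K, (1 / 2 : ℝ) ^ i ≤ 2 := by
  have := sum_geometric_two_le K
  simpa using this

lemma sum_ite_le (K k : ℕ) : ∑ i ∈ Finset.range K, (if i = k then (1 : ℝ) else 0) ≤ 1 := by
  rw [Finset.sum_ite_eq']
  split_ifs <;> norm_num

lemma sum_five (k : ℕ) : ∑ i ∈ Finset.range k, (5 : ℝ) ^ i = (5 ^ k - 1) / 4 := by
  rw [geom_sum_eq (by norm_num)]; norm_num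

/-- For `t` at most the inverse slope the increments are small. -/
lemma small_of_le {i k : ℕ} (hik : k < i) {t : ℝ} (ht0 : 0 ≤ t) (ht : t ≤ P M (k + 1)) (s : ℝ) :
    chi M lam i (s + t) - chi M lam i s ≤ (1 / 2) ^ i := by
  refine (chi_sub_le' M lam i s ht0).trans ?_
  have h2 := r_mul_P M h0 h1 hM i
  have hr := r_pos M lam i
  have h3 : (P M (k + 1) : ℝ) ≤ P M i := by exact_mod_cast P_mono M hik
  calc r M lam i * t ≤ r M lam i * P M i := by gcongr; linarith
    _ ≤ _ := h2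

/-- (L1) -/
lemma L1 (k : ℕ) {s t : ℝ} (hs : 0 ≤ s) (ht : 0 ≤ t) (htr : t ≤ 1 / r M lam k) :
    Lam M lam (s + t) - Lam M lam s ≤ (5 ^ k - 1) / 4 + 3 := by
  obtain ⟨K, hK, hK2⟩ := Lam_sub_le_sum M h0 h1 hM hs ht (k + 1)
  rw [hK2]
  have hr := r_pos M lam k
  have htP : t ≤ P M (k + 1) := htr.trans (inv_r_le M h0 h1 hM k)
  have key : ∀ i ∈ Finset.range K, chi M lam i (s + t) - chi M lam i s ≤
      (if i < k then (5 : ℝ) ^ i else 0) + (if i = k then (1 : ℝ) else 0) + (1 / 2) ^ i := by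
    intro i _
    have hpos : (0 : ℝ) < (1 / 2) ^ i := by positivity
    rcases lt_trichotomy i k with h | h | h
    · rw [if_pos h, if_neg h.ne]
      have h2 := chi_le M lam i (s + t)
      have h3 := chi_nonneg M lam i s
      linarith
    · subst h
      rw [if_neg (lt_irrefl _), if_pos rfl]
      have h2 := chi_sub_le' M lam i s ht
      rw [le_div_iff₀ hr] at htr
      linarith
    · rw [if_neg (by omega), if_neg (by omega)]
      have := small_of_le M h0 h1 hM h ht htP s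
      linarith
  refine (Finset.sum_le_sum key).trans ?_
  rw [Finset.sum_add_distrib, Finset.sum_add_distrib]
  have h2 := sum_half M h0 h1 hM K
  have h3 := sum_ite_le M h0 h1 hM K k
  have h4 : ∑ i ∈ Finset.range K, (if i < k then (5 : ℝ) ^ i else 0) ≤ (5 ^ k - 1) / 4 := by
    rw [← sum_five M h0 h1 hM k, ← Finset.sum_filter]
    refine Finset.sum_le_sum_of_subset_of_nonneg ?_ fun i _ _ => by positivity
    intro i hi
    rw [Finset.mem_filter] at hi
    exact Finset.mem_range.2 hi.2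
  linarith

/-- (L2) -/
lemma L2 (k : ℕ) {t : ℝ} (ht0 : W M lam k ≤ t) (ht : t ≤ (P M (k + 1) : ℝ) / 2) :
    5 ^ k - (5 ^ k - 1) / 4 ≤
      Lam M lam ((P M (k + 1) : ℝ) / 2) - Lam M lam ((P M (k + 1) : ℝ) / 2 - t) := by
  have hP : (P M (k + 1) : ℝ) * 8 ≤ P M (k + 1 + 1) := by
    have := eight_mul_le M (k + 1)
    have h2 : ((8 * P M (k + 1) : ℕ) : ℝ) ≤ P M (k + 1 + 1) := by exact_mod_cast this
    push_cast at h2; linarith
  have hp0 : (0 : ℝ) < P M (k + 1) := by exact_mod_cast P_pos M _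
  have hW := W_pos M lam k
  rw [Lam_eq M h0 h1 hM (K := k + 1) (by positivity) (by linarith),
    Lam_eq M h0 h1 hM (K := k + 1) (by linarith) (by linarith), Finset.sum_range_succ,
    Finset.sum_range_succ, chi_mid, chi_zero M h0 h1 hM k (s := (P M (k + 1) : ℝ) / 2 - t)
      (by linarith) (by linarith)]
  have h2 : 0 ≤ ∑ i ∈ Finset.range k, chi M lam i ((P M (k + 1) : ℝ) / 2) :=
    Finset.sum_nonneg fun i _ => chi_nonneg _ _ _ _
  have h3 : ∑ i ∈ Finset.range k, chi M lam i ((P M (k + 1) : ℝ) / 2 - t) ≤ (5 ^ k - 1) / 4 := by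
    rw [← sum_five M h0 h1 hM k]
    exact Finset.sum_le_sum fun i _ => chi_le _ _ _ _
  linarith

/-- (L3) -/
lemma L3 {s t : ℝ} (hs : 0 ≤ s) (ht : 0 ≤ t) : Lam M lam (s + t) - Lam M lam s ≤ 2 * t := by
  obtain ⟨K, hK, hK2⟩ := Lam_sub_le_sum M h0 h1 hM hs ht 0
  rw [hK2]
  calc ∑ i ∈ Finset.range K, (chi M lam i (s + t) - chi M lam i s)
      ≤ ∑ i ∈ Finset.range K, (1 / 2 : ℝ) ^ i * t := by
        refine Finset.sum_le_sum fun i _ => (chi_sub_le' M lam i s ht).trans ?_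
        have := r_le M h0 h1 hM i
        gcongr
    _ = (∑ i ∈ Finset.range K, (1 / 2 : ℝ) ^ i) * t := by rw [Finset.sum_mul]
    _ ≤ 2 * t := by have := sum_half M h0 h1 hM K; gcongr

/-- (L4) -/
lemma L4 (k d d' : ℕ) (hd' : (d' : ℝ) * P M k ≤ 1 / r M lam k)
    (hd : (d : ℝ) * P M (k + 1) + d' * P M k ≤ 1 / r M lam (k + 1)) {s : ℝ} (hs : 0 ≤ s) :
    Lam M lam (s + ((d * P M (k + 1) + d' * P M k : ℕ) : ℝ)) - Lam M lam s ≤ 4 := by
  set t : ℕ := d * P M (k + 1) + d' * P M k with ht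
  obtain ⟨K, hK, hK2⟩ := Lam_sub_le_sum M h0 h1 hM hs (t := (t : ℝ)) (by positivity) (k + 2)
  rw [hK2]
  have hr := r_pos M lam k
  have hr1 := r_pos M lam (k + 1)
  have htc : (t : ℝ) = (d : ℝ) * P M (k + 1) + d' * P M k := by rw [ht]; push_cast; ring
  have htP : (t : ℝ) ≤ P M (k + 1 + 1) := by
    rw [htc]; exact hd.trans (inv_r_le M h0 h1 hM (k + 1))
  have key : ∀ i ∈ Finset.range K, chi M lam i (s + t) - chi M lam i s ≤
      (if i = k then (1 : ℝ) else 0) + (if i = k + 1 then (1 : ℝ) else 0) + (1 / 2) ^ i := by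
    intro i _
    have hpos : (0 : ℝ) < (1 / 2) ^ i := by positivity
    rcases lt_trichotomy i k with h | h | h
    · rw [if_neg h.ne, if_neg (by omega)]
      have hdvd : P M (i + 1) ∣ t := by
        rw [ht]
        refine dvd_add (Dvd.dvd.mul_left (P_dvd M (by omega)) _) (Dvd.dvd.mul_left (P_dvd M h) _)
      rw [chi_period M lam i s hdvd, sub_self]
      linarith
    · subst h
      rw [if_pos rfl, if_neg (by omega)]
      have e : chi M lam i (s + t) = chi M lam i (s + (d' : ℝ) * P M i) := by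
        have e2 : s + (t : ℝ) = (s + (d' : ℝ) * P M i) + ((d * P M (i + 1) : ℕ) : ℝ) := by
          rw [htc]; push_cast; ring
        rw [e2, chi_period M lam i _ (Dvd.intro_left _ rfl)]
      rw [e]
      have h2 := chi_sub_le' M lam i s (t := (d' : ℝ) * P M i) (by positivity)
      rw [le_div_iff₀ hr] at hd'
      linarith
    · rcases Nat.lt_or_ge (k + 1) i with h' | h'
      · rw [if_neg (by omega), if_neg (by omega)]
        have := small_of_le M h0 h1 hM h' (t := (t : ℝ)) (by positivity) htP s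
        linarith
      · obtain rfl : i = k + 1 := by omega
        rw [if_neg (by omega), if_pos rfl]
        have h2 := chi_sub_le' M lam (k + 1) s (t := (t : ℝ)) (by positivity)
        rw [← htc, le_div_iff₀ hr1] at hd
        linarith
  refine (Finset.sum_le_sum key).trans ?_
  rw [Finset.sum_add_distrib, Finset.sum_add_distrib]
  have h2 := sum_half M h0 h1 hM K
  have h3 := sum_ite_le M h0 h1 hM K k
  have h4 := sum_ite_le M h0 h1 hM K (k + 1)
  linarith

/-- Many good times. -/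
theorem count {lam' : ℝ} (hl0 : 0 < lam') (hl : lam' < lam) : ∃ N₀ : ℝ, ∀ N : ℝ, N₀ ≤ N →
    ∃ F : Finset ℕ, (∀ t ∈ F, 1 ≤ t ∧ (t : ℝ) ≤ N ∧
      ∀ s : ℝ, 0 ≤ s → Lam M lam (s + t) - Lam M lam s ≤ 4) ∧ N ^ lam' / 4 ≤ F.card := by
  obtain ⟨k₀, hk₀⟩ := exists_nat_gt (1 / (lam - lam'))
  refine ⟨P M (k₀ + 1), fun N hN => ?_⟩
  have hex : ∃ m, N < (P M (m + 1) : ℝ) := by
    obtain ⟨m, hm⟩ := exists_nat_gt N
    refine ⟨m, hm.trans ?_⟩
    have := lt_P M (m + 1)
    have h2 : m < P M (m + 1) := by omega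
    exact_mod_cast h2
  classical
  obtain ⟨k, hkk, hk1, hk2⟩ : ∃ k, k₀ ≤ k ∧ (P M (k + 1) : ℝ) ≤ N ∧ N < (P M (k + 1 + 1) : ℝ) := by
    have h2 := Nat.find_spec hex
    have h3 : k₀ < Nat.find hex := by
      by_contra hcon
      push Not at hcon
      have : (P M (Nat.find hex + 1) : ℝ) ≤ P M (k₀ + 1) := by exact_mod_cast P_mono M (by omega)
      linarith
    refine ⟨Nat.find hex - 1, by omega, ?_, ?_⟩
    · have := Nat.find_min hex (m := Nat.find hex - 1) (by omega)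
      exact not_lt.1 this
    · have e : Nat.find hex - 1 + 1 = Nat.find hex := by omega
      rw [e]; exact h2
  have hd : 0 < lam - lam' := by linarith
  have hgk : ∀ j, k₀ ≤ j → (P M (j + 1) : ℝ) ^ lam' ≤ 1 / (r M lam j * P M j) := by
    intro j hj
    refine growth M h0 h1 hM hl ?_
    rw [div_lt_iff₀ hd] at hk₀
    have : (k₀ : ℝ) ≤ j := by exact_mod_cast hj
    nlinarith
  have hr := r_pos M lam k
  have hr1 := r_pos M lam (k + 1)
  have hPk : (0 : ℝ) < P M k := by exact_mod_cast P_pos M k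
  have hQ : (0 : ℝ) < P M (k + 1) := by exact_mod_cast P_pos M (k + 1)
  have hQ1 : (1 : ℝ) ≤ P M (k + 1) := one_le_P M _
  have hQl : (1 : ℝ) ≤ (P M (k + 1) : ℝ) ^ lam' := Real.one_le_rpow hQ1 hl0.le
  set N' : ℝ := min N (1 / r M lam (k + 1)) with hN'
  have hQN' : (P M (k + 1) : ℝ) ≤ N' := le_min hk1 (P_le_inv_r M h0 h1 hM (k + 1))
  have hNd : 0 ≤ N' / P M (k + 1) := div_nonneg (by linarith) hQ.le
  set m : ℕ := ⌊N' / P M (k + 1)⌋₊ with hm
  set D : ℕ := ⌊1 / (r M lam k * P M k)⌋₊ with hD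
  have hfloor : ∀ x : ℝ, 1 ≤ x → x / 2 ≤ ⌊x⌋₊ := by
    intro x hx
    have h2 : 1 ≤ ⌊x⌋₊ := Nat.le_floor (by simpa using hx)
    have h3 : x < ⌊x⌋₊ + 1 := Nat.lt_floor_add_one x
    have h4 : (1 : ℝ) ≤ ⌊x⌋₊ := by exact_mod_cast h2
    linarith
  have hm1 : N' / P M (k + 1) / 2 ≤ m := hfloor _ ((one_le_div hQ).2 hQN')
  have hgk1 := hgk k hkk
  have hD1 : 1 / (r M lam k * P M k) / 2 ≤ D := hfloor _ (hQl.trans hgk1)
  have hm2 : (m : ℝ) * P M (k + 1) ≤ N' := by
    have : (m : ℝ) ≤ N' / P M (k + 1) := Nat.floor_le hNd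
    rwa [le_div_iff₀ hQ] at this
  have hD2 : ∀ d' < D, ((d' + 1 : ℕ) : ℝ) * P M k ≤ 1 / r M lam k := by
    intro d' hd'
    have h2 : ((d' + 1 : ℕ) : ℝ) ≤ D := by exact_mod_cast hd'
    have h3 : (D : ℝ) ≤ 1 / (r M lam k * P M k) := Nat.floor_le (by positivity)
    calc ((d' + 1 : ℕ) : ℝ) * P M k ≤ 1 / (r M lam k * P M k) * P M k := by
          gcongr; exact h2.trans h3
      _ = 1 / r M lam k := by field_simp
  have h8 := inv_r_le8 M h0 h1 hM k
  let g : ℕ × ℕ → ℕ := fun p => p.1 * P M (k + 1) + (p.2 + 1) * P M k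
  have hlt : ∀ d' < D, (d' + 1) * P M k < P M (k + 1) := by
    intro d' hd'
    have h2 := hD2 d' hd'
    have h3 : (((d' + 1) * P M k : ℕ) : ℝ) < P M (k + 1) := by
      push_cast at h2 ⊢; linarith
    exact_mod_cast h3
  refine ⟨(Finset.range m ×ˢ Finset.range D).image g, ?_, ?_⟩
  · intro t ht
    rw [Finset.mem_image] at ht
    obtain ⟨⟨d, d'⟩, hp, rfl⟩ := ht
    rw [Finset.mem_product, Finset.mem_range, Finset.mem_range] at hp
    have h2 := hD2 d' hp.2
    have hdm : (d : ℝ) + 1 ≤ m := by exact_mod_cast hp.1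
    have h3 : (d : ℝ) * P M (k + 1) + ((d' + 1 : ℕ) : ℝ) * P M k ≤ N' := by
      have : ((d : ℝ) + 1) * P M (k + 1) ≤ N' := le_trans (by gcongr) hm2
      linarith
    refine ⟨?_, ?_, ?_⟩
    · have : 0 < (d' + 1) * P M k := Nat.mul_pos (by omega) (P_pos M k)
      simp only [g]; omega
    · simp only [g]; push_cast at h3 ⊢
      exact h3.trans (min_le_left _ _)
    · intro s hs
      exact L4 M h0 h1 hM k d (d' + 1) h2 (h3.trans (min_le_right _ _)) hs
  · have hinj : Set.InjOn g (Finset.range m ×ˢ Finset.range D : Finset (ℕ × ℕ)) := by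
      rintro ⟨d, d'⟩ hp ⟨e, e'⟩ hq heq
      rw [Finset.mem_coe, Finset.mem_product, Finset.mem_range, Finset.mem_range] at hp hq
      simp only [g] at heq
      have h2 := hlt d' hp.2
      have h3 := hlt e' hq.2
      have h4 : d = e := by
        have e1 : (d * P M (k + 1) + (d' + 1) * P M k) / P M (k + 1) = d := by
          rw [Nat.add_div_of_dvd_right (Dvd.intro_left _ rfl), Nat.mul_div_cancel _ (P_pos M _),
            Nat.div_eq_of_lt h2, add_zero]
        have e2 : (e * P M (k + 1) + (e' + 1) * P M k) / P M (k + 1) = e := by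
          rw [Nat.add_div_of_dvd_right (Dvd.intro_left _ rfl), Nat.mul_div_cancel _ (P_pos M _),
            Nat.div_eq_of_lt h3, add_zero]
        rw [← e1, heq, e2]
      subst h4
      have h5 : (d' + 1) * P M k = (e' + 1) * P M k := by omega
      have h6 := Nat.eq_of_mul_eq_mul_right (P_pos M k) h5
      simp only [Prod.mk.injEq, true_and]
      omega
    rw [Finset.card_image_of_injOn hinj, Finset.card_product, Finset.card_range,
      Finset.card_range]
    push_cast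
    have h5 : N ^ lam' ≤ N' / P M (k + 1) * (P M (k + 1) : ℝ) ^ lam' := by
      rcases min_choice N (1 / r M lam (k + 1)) with h | h
      · have hNN : N' = N := h
        rw [hNN]
        have hx : 1 ≤ N / P M (k + 1) := (one_le_div hQ).2 hk1
        have hNpos : 0 ≤ N := by linarith
        have h6 : (N / P M (k + 1)) ^ lam' ≤ N / P M (k + 1) := by
          calc (N / P M (k + 1)) ^ lam' ≤ (N / P M (k + 1)) ^ (1 : ℝ) :=
                Real.rpow_le_rpow_of_exponent_le hx (by linarith)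
            _ = _ := Real.rpow_one _
        calc N ^ lam' = (N / P M (k + 1)) ^ lam' * (P M (k + 1) : ℝ) ^ lam' := by
              rw [← Real.mul_rpow (by positivity) hQ.le]
              congr 1; field_simp
          _ ≤ _ := by gcongr
      · have hNN : N' = 1 / r M lam (k + 1) := h
        rw [hNN]
        have h6 := hgk (k + 1) (by omega)
        have hNpos : 0 ≤ N := by linarith
        have h7 : N ^ lam' ≤ (P M (k + 1 + 1) : ℝ) ^ lam' := Real.rpow_le_rpow hNpos hk2.le hl0.le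
        have h9 : 1 / r M lam (k + 1) / P M (k + 1) = 1 / (r M lam (k + 1) * P M (k + 1)) := by
          rw [div_div]
        rw [h9]
        calc N ^ lam' ≤ 1 / (r M lam (k + 1) * P M (k + 1)) * 1 := by linarith
          _ ≤ _ := by gcongr
    calc N ^ lam' / 4 ≤ (N' / P M (k + 1) * (P M (k + 1) : ℝ) ^ lam') / 4 := by gcongr
      _ ≤ (N' / P M (k + 1) * (1 / (r M lam k * P M k))) / 4 := by gcongr
      _ = (N' / P M (k + 1) / 2) * (1 / (r M lam k * P M k) / 2) := by ring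
      _ ≤ m * D := by gcongr

end bounds3

end Pool.Agent.X86.DC.Fn
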