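import Mathlib
import Pool.Agent.X86.DC.Fn

set_option autoImplicit false
set_option linter.unusedSectionVars false

/-!
# Weighted backward shifts on Banach sequence spaces
-/

namespace Pool.Agent.X86.DC.Seq

open Filter Topology
open scoped ENNReal

/-- The lower `q`-density `liminf |A ∩ [1, n^q]| / n`. -/
noncomputable def lowerDens (q : ℝ) (A : Set ℕ) : ℝ≥0∞ :=
  liminf (fun n : ℕ => ({j : ℕ | j ∈ A ∧ 1 ≤ j ∧ (j : ℝ) ≤ (n : ℝ) ^ q}.ncard : ℝ≥0∞) / n) atTop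

/-- `S` is scrambled. -/
def Scrambled {𝕜 X : Type*} [RCLike 𝕜] [NormedAddCommGroup X] [NormedSpace 𝕜 X] (lam : ℝ)
    (T : X →L[𝕜] X) (S : Set X) : Prop :=
  ¬ S.Countable ∧ ∃ σ : ℝ, 0 < σ ∧ ∀ x ∈ S, ∀ y ∈ S, x ≠ y →
    lowerDens (1 / lam) {j | ‖(T ^ j) x - (T ^ j) y‖ < σ} = 0 ∧
    ∀ ε : ℝ, 0 < ε → lowerDens (1 / lam) {j | ε < ‖(T ^ j) x - (T ^ j) y‖} = 0

/-- A Banach space of sequences with a solid norm. -/
structure SeqSpace (𝕜 X : Type*) [RCLike 𝕜] [NormedAddCommGroup X] [NormedSpace 𝕜 X] where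
  c : X →ₗ[𝕜] (ℕ → 𝕜)
  inj : Function.Injective c
  norm_le : ∀ x n, ‖c x n‖ ≤ ‖x‖
  solid : ∀ (C : ℝ) (t : ℕ) (x : X) (z : ℕ → 𝕜), 0 ≤ C → (∀ n, ‖z n‖ ≤ C * ‖c x (n + t)‖) →
    ∃ x', c x' = z ∧ ‖x'‖ ≤ C * ‖x‖
  e : ℕ → X
  c_e : ∀ n, c (e n) = Pi.single n 1
  norm_e : ∀ n, ‖e n‖ ≤ 1
  span_dense : Dense (Submodule.span 𝕜 (Set.range e) : Set X)

lemma zero_of_le {q : ℝ} {A : Set ℕ}
    (h : ∀ ε : ℝ, 0 < ε → ∃ᶠ n : ℕ in atTop, 0 < n ∧
      ({j : ℕ | j ∈ A ∧ 1 ≤ j ∧ (j : ℝ) ≤ (n : ℝ) ^ q}.ncard : ℝ) ≤ ε * n) :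
    lowerDens q A = 0 := by
  have key : ∀ ε : ℝ, 0 < ε → lowerDens q A ≤ ENNReal.ofReal ε := by
    intro ε hε
    refine liminf_le_of_frequently_le' ((h ε hε).mono fun n hn => ?_)
    refine ENNReal.div_le_of_le_mul ?_
    have h1 : ((n : ℝ≥0∞)) = ENNReal.ofReal n := (ENNReal.ofReal_natCast n).symm
    rw [h1, ← ENNReal.ofReal_mul hε.le, ← ENNReal.ofReal_natCast]
    exact ENNReal.ofReal_le_ofReal hn.2
  refine le_antisymm ?_ zero_le
  refine le_of_forall_pos_le_add ?_ |>.trans (le_of_eq (zero_add 0))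
  intro ε hε
  rcases eq_or_ne ε ⊤ with h' | h'
  · rw [h']; exact le_top.trans (by simp)
  · have h1 : 0 < ε.toReal := ENNReal.toReal_pos hε.ne' h'
    have := key ε.toReal h1
    rw [ENNReal.ofReal_toReal h'] at this
    exact this.trans (by simp)

lemma dens_zero {lam : ℝ} (h0 : 0 < lam) {A : Set ℕ} (a B : ℕ → ℝ) (k₀ : ℕ)
    (hsub : ∀ k ≥ k₀, ∀ j ∈ A, (j : ℝ) ≤ B k → (j : ℝ) ≤ a k)
    (ha : ∀ k : ℕ, ((k : ℝ) + 1) * a k ≤ 4 * (B k) ^ lam) (ha0 : ∀ k, 0 ≤ a k)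
    (hB : ∀ k : ℕ, (k : ℝ) ≤ (B k) ^ lam) (hB0 : ∀ k, 0 ≤ B k) :
    lowerDens (1 / lam) A = 0 := by
  refine zero_of_le fun ε hε => ?_
  rw [frequently_atTop]
  intro N₀
  obtain ⟨m, hm⟩ := exists_nat_gt (8 / ε)
  set k : ℕ := max k₀ (max m (N₀ + 1)) with hk
  have hk0 : k₀ ≤ k := le_max_left _ _
  have hkm : m ≤ k := (le_max_left _ _).trans (le_max_right _ _)
  have hkN : N₀ + 1 ≤ k := (le_max_right _ _).trans (le_max_right _ _)
  set n : ℕ := ⌊(B k) ^ lam⌋₊ with hn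
  have hBk := hB k
  have hkn : k ≤ n := Nat.le_floor hBk
  have hn1 : 1 ≤ n := by omega
  refine ⟨n, by omega, by omega, ?_⟩
  have hnB : (n : ℝ) ≤ (B k) ^ lam := Nat.floor_le (by
    have : (0 : ℝ) ≤ k := by positivity
    linarith)
  have hnB2 : (B k) ^ lam < n + 1 := Nat.lt_floor_add_one _
  have hpow : (n : ℝ) ^ (1 / lam) ≤ B k := by
    calc (n : ℝ) ^ (1 / lam) ≤ ((B k) ^ lam) ^ (1 / lam) :=
          Real.rpow_le_rpow (by positivity) hnB (by positivity)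
      _ = B k := by rw [← Real.rpow_mul (hB0 k), mul_one_div_cancel h0.ne', Real.rpow_one]
  have hfin : {j : ℕ | j ∈ A ∧ 1 ≤ j ∧ (j : ℝ) ≤ (n : ℝ) ^ (1 / lam)} ⊆
      (Finset.Icc 1 ⌊a k⌋₊ : Finset ℕ) := by
    rintro j ⟨hjA, hj1, hj2⟩
    rw [Finset.mem_coe, Finset.mem_Icc]
    exact ⟨hj1, Nat.le_floor (hsub k hk0 j hjA (hj2.trans hpow))⟩
  have hcard : {j : ℕ | j ∈ A ∧ 1 ≤ j ∧ (j : ℝ) ≤ (n : ℝ) ^ (1 / lam)}.ncard ≤ ⌊a k⌋₊ := by
    refine (Set.ncard_le_ncard hfin (Finset.finite_toSet _)).trans ?_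
    rw [Set.ncard_coe_finset, Nat.card_Icc]
    omega
  have h2 : (({j : ℕ | j ∈ A ∧ 1 ≤ j ∧ (j : ℝ) ≤ (n : ℝ) ^ (1 / lam)}.ncard : ℕ) : ℝ) ≤ a k :=
    le_trans (by exact_mod_cast hcard) (Nat.floor_le (ha0 k))
  refine h2.trans ?_
  have h3 := ha k
  have hn1' : (1 : ℝ) ≤ n := by exact_mod_cast hn1
  have h4 : ((k : ℝ) + 1) * a k ≤ 8 * n := by linarith
  have h5 : (m : ℝ) ≤ k := by exact_mod_cast hkm
  rw [div_lt_iff₀ hε] at hm
  have h6 : 8 ≤ ε * ((k : ℝ) + 1) := by nlinarith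
  have h7 : (0 : ℝ) < (k : ℝ) + 1 := by positivity
  have h8 : ((k : ℝ) + 1) * a k ≤ ((k : ℝ) + 1) * (ε * n) := by
    calc ((k : ℝ) + 1) * a k ≤ 8 * n := h4
      _ ≤ (ε * ((k : ℝ) + 1)) * n := by gcongr
      _ = _ := by ring
  exact le_of_mul_le_mul_left h8 h7

lemma dens_pos {lam' : ℝ} (h0 : 0 < lam') {A : Set ℕ}
    (h : ∃ N₀ : ℝ, ∀ N : ℝ, N₀ ≤ N → ∃ F : Finset ℕ, (∀ t ∈ F, 1 ≤ t ∧ (t : ℝ) ≤ N ∧ t ∈ A) ∧
      N ^ lam' / 4 ≤ F.card) : lowerDens (1 / lam') A ≠ 0 := by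
  obtain ⟨N₀, hN₀⟩ := h
  have h1 : (1 / 4 : ℝ≥0∞) ≤ lowerDens (1 / lam') A := by
    refine le_liminf_of_le (by isBoundedDefault) ?_
    have htend : Tendsto (fun n : ℕ => (n : ℝ) ^ (1 / lam')) atTop atTop :=
      (tendsto_rpow_atTop (by positivity)).comp tendsto_natCast_atTop_atTop
    filter_upwards [htend.eventually_ge_atTop N₀, eventually_gt_atTop 0] with n hn hn0
    obtain ⟨F, hF, hFc⟩ := hN₀ _ hn
    have e : ((n : ℝ) ^ (1 / lam')) ^ lam' = n := by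
      rw [← Real.rpow_mul (by positivity), one_div_mul_cancel h0.ne', Real.rpow_one]
    rw [e] at hFc
    have hfin : {j : ℕ | j ∈ A ∧ 1 ≤ j ∧ (j : ℝ) ≤ (n : ℝ) ^ (1 / lam')}.Finite := by
      refine (Finset.finite_toSet (Finset.Icc 1 ⌊(n : ℝ) ^ (1 / lam')⌋₊)).subset ?_
      rintro j ⟨_, hj1, hj2⟩
      rw [Finset.mem_coe, Finset.mem_Icc]
      exact ⟨hj1, Nat.le_floor hj2⟩
    have hle : F.card ≤ {j : ℕ | j ∈ A ∧ 1 ≤ j ∧ (j : ℝ) ≤ (n : ℝ) ^ (1 / lam')}.ncard := by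
      rw [← Set.ncard_coe_finset]
      refine Set.ncard_le_ncard ?_ hfin
      intro t ht
      obtain ⟨h2, h3, h4⟩ := hF t ht
      exact ⟨h4, h2, h3⟩
    have hn0' : (0 : ℝ) < n := by exact_mod_cast hn0
    rw [ENNReal.le_div_iff_mul_le (Or.inl (by simpa using hn0.ne')) (Or.inl (ENNReal.natCast_ne_top n))]
    have h5 : (1 / 4 : ℝ≥0∞) * n = ENNReal.ofReal (n / 4) := by
      rw [div_eq_mul_inv (n : ℝ), ENNReal.ofReal_mul (by positivity), ENNReal.ofReal_natCast,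
        ENNReal.ofReal_inv_of_pos (by norm_num), one_div, mul_comm]
      norm_num
    rw [h5, ← ENNReal.ofReal_natCast]
    refine ENNReal.ofReal_le_ofReal (hFc.trans ?_)
    exact_mod_cast hle
  intro h2
  rw [h2] at h1
  exact absurd h1 (by simp)

section

variable {𝕜 X : Type*} [RCLike 𝕜] [NormedAddCommGroup X] [NormedSpace 𝕜 X] (S : SeqSpace 𝕜 X)

/-- The operator with a bounded multiplier and a shift. -/
lemma exists_op (t : ℕ) (a : ℕ → 𝕜) (C : ℝ) (hC : 0 ≤ C) (ha : ∀ n, ‖a n‖ ≤ C) :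
    ∃ T : X →L[𝕜] X, ∀ x n, S.c (T x) n = a n * S.c x (n + t) := by
  have h : ∀ x : X, ∃ x', S.c x' = (fun n => a n * S.c x (n + t)) ∧ ‖x'‖ ≤ C * ‖x‖ := by
    intro x
    refine S.solid C t x _ hC fun n => ?_
    rw [norm_mul]
    exact mul_le_mul_of_nonneg_right (ha n) (norm_nonneg _)
  choose f hf1 hf2 using h
  refine ⟨LinearMap.mkContinuous
    { toFun := f
      map_add' := by
        intro x y
        apply S.inj
        rw [map_add, hf1, hf1, hf1, map_add]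
        funext n
        simp only [Pi.add_apply]; ring
      map_smul' := by
        intro b x
        apply S.inj
        rw [RingHom.id_apply, map_smul, hf1, hf1, map_smul]
        funext n
        simp only [Pi.smul_apply, smul_eq_mul]; ring } C hf2, ?_⟩
  intro x n
  exact congrFun (hf1 x) n

include S in
lemma separable : TopologicalSpace.SeparableSpace X := by
  have h1 : TopologicalSpace.IsSeparable (Submodule.span 𝕜 (Set.range S.e) : Set X) :=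
    (Set.countable_range S.e).isSeparable.span
  have h2 := h1.closure
  rw [S.span_dense.closure_eq] at h2
  exact TopologicalSpace.isSeparable_univ_iff.1 h2

variable {S}

section fixedT

variable {L : ℕ → ℝ} {T : X →L[𝕜] X}
  (hT : ∀ x n, S.c (T x) n = ((Real.exp (L (n + 1) - L n) : ℝ) : 𝕜) * S.c x (n + 1))

include hT

lemma c_pow (t : ℕ) (x : X) (n : ℕ) :
    S.c ((T ^ t) x) n = ((Real.exp (L (n + t) - L n) : ℝ) : 𝕜) * S.c x (n + t) := by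
  induction t generalizing n with
  | zero => simp
  | succ t ih =>
    rw [pow_succ', mul_apply_eq_comp, hT, ih, ← mul_assoc, ← RCLike.ofReal_mul, ← Real.exp_add]
    have e1 : n + 1 + t = n + (t + 1) := by ring
    rw [e1]
    congr 3
    ring

lemma norm_pow_le (t : ℕ) (x : X) {C : ℝ} (h : ∀ n, L (n + t) - L n ≤ C) :
    ‖(T ^ t) x‖ ≤ Real.exp C * ‖x‖ := by
  obtain ⟨x', hx', hn⟩ := S.solid (Real.exp C) t x (S.c ((T ^ t) x)) (Real.exp_pos _).le (by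
    intro n
    rw [c_pow hT, norm_mul, RCLike.norm_ofReal, abs_of_pos (Real.exp_pos _)]
    exact mul_le_mul_of_nonneg_right (Real.exp_le_exp.2 (h n)) (norm_nonneg _))
  rw [← S.inj hx']; exact hn

lemma pow_e_zero {t m : ℕ} (h : m < t) : (T ^ t) (S.e m) = 0 := by
  apply S.inj
  rw [map_zero]
  funext n
  rw [c_pow hT, S.c_e, Pi.single_eq_of_ne (by omega), mul_zero]
  rfl

lemma null_of_span {x : X} (hx : x ∈ Submodule.span 𝕜 (Set.range S.e)) :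
    ∃ N, ∀ t ≥ N, (T ^ t) x = 0 := by
  induction hx using Submodule.span_induction with
  | mem x hx =>
    obtain ⟨m, rfl⟩ := hx
    exact ⟨m + 1, fun t ht => pow_e_zero hT (by omega)⟩
  | zero => exact ⟨0, fun t _ => map_zero _⟩
  | add x y _ _ ihx ihy =>
    obtain ⟨N₁, h1⟩ := ihx
    obtain ⟨N₂, h2⟩ := ihy
    exact ⟨max N₁ N₂, fun t ht => by
      rw [map_add, h1 t (le_of_max_le_left ht), h2 t (le_of_max_le_right ht), add_zero]⟩
  | smul a x _ ihx =>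
    obtain ⟨N₁, h1⟩ := ihx
    exact ⟨N₁, fun t ht => by rw [map_smul, h1 t ht, smul_zero]⟩

end fixedT

end

end Pool.Agent.X86.DC.Seq
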