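import Mathlib
import Pool.Agent.X86.DC.Seq

set_option autoImplicit false
set_option linter.unusedSectionVars false

/-!
# The exact distributional chaos exponent of a weighted backward shift
-/

namespace Pool.Agent.X86.DC.Seq

open Filter Topology
open scoped ENNReal

variable {𝕜 X : Type*} [RCLike 𝕜] [NormedAddCommGroup X] [NormedSpace 𝕜 X] [CompleteSpace X]
  (S : SeqSpace 𝕜 X)

section

variable (M : ℕ) {lam : ℝ} (h0 : 0 < lam) (h1 : lam ≤ 1) (hM : 4 / lam ^ 2 ≤ M)

/-- The exponent at the integers. -/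
noncomputable def LL (M : ℕ) (lam : ℝ) (n : ℕ) : ℝ := Fn.Lam M lam n

/-- The special places. -/
def sp (M k : ℕ) : ℕ := Fn.P M (k + 1) / 2

lemma sp_cast (k : ℕ) : ((sp M k : ℕ) : ℝ) = (Fn.P M (k + 1) : ℝ) / 2 := by
  unfold sp
  rw [Nat.cast_div (Fn.even_P M k) (by norm_num)]
  norm_num

lemma sp_strictMono : StrictMono (sp M) := by
  refine strictMono_nat_of_lt_succ fun k => ?_
  have h2 := Fn.eight_mul_le M (k + 1)
  have h3 := Fn.P_pos M (k + 1)
  unfold sp
  omega

/-- The coefficients. -/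
noncomputable def co (k : ℕ) : ℝ := Real.exp (-((5 ^ k - 1) / 4) - 2 * k)

lemma co_pos (k : ℕ) : 0 < co k := Real.exp_pos _

lemma exp_neg_le (j : ℕ) : Real.exp (-(j : ℝ)) ≤ (1 / 2) ^ j := by
  have h2 : Real.exp (-(1 : ℝ)) ≤ 1 / 2 := by
    rw [Real.exp_neg, one_div]
    have := Real.add_one_le_exp (1 : ℝ)
    gcongr; linarith
  calc Real.exp (-(j : ℝ)) = (Real.exp (-(1 : ℝ))) ^ j := by
        rw [← Real.exp_nat_mul]; congr 1; ring
    _ ≤ _ := by gcongr

lemma five_pow_ge (k : ℕ) : 6 * (k : ℝ) ≤ 5 ^ k + 1 := by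
  rcases k with _ | _ | k
  · norm_num
  · norm_num
  · have h2 : (k : ℝ) + 1 ≤ 5 ^ k := by
      have : k + 1 ≤ 5 ^ k := Nat.succ_le_of_lt (Nat.lt_pow_self (by norm_num))
      exact_mod_cast this
    have e : (5 : ℝ) ^ (k + 1 + 1) = 25 * 5 ^ k := by ring
    rw [e]
    push_cast
    linarith [(by positivity : (0 : ℝ) ≤ k)]

/-- The terms of the irregular vector. -/
noncomputable def term (k : ℕ) : X := ((co k : ℝ) : 𝕜) • S.e (sp M k)

lemma norm_term_le (k : ℕ) : ‖term S M k‖ ≤ (1 / 2) ^ k := by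
  unfold term
  rw [norm_smul, RCLike.norm_ofReal, abs_of_pos (co_pos k)]
  have h2 : co k ≤ (1 / 2) ^ k := by
    refine le_trans ?_ (exp_neg_le k)
    unfold co
    refine Real.exp_le_exp.2 ?_
    have h3 : (1 : ℝ) ≤ 5 ^ k := one_le_pow₀ (by norm_num)
    have h4 : (0 : ℝ) ≤ k := by positivity
    linarith
  calc co k * ‖S.e (sp M k)‖ ≤ (1 / 2) ^ k * 1 := by
        have := S.norm_e (sp M k)
        gcongr
    _ = _ := mul_one _

lemma summable_term : Summable (term S M) := by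
  refine Summable.of_norm_bounded (g := fun k => (1 / 2 : ℝ) ^ k) ?_ (norm_term_le S M)
  exact summable_geometric_of_lt_one (by norm_num) (by norm_num)

/-- The irregular vector. -/
noncomputable def yy : X := ∑' k, term S M k

lemma c_yy (k : ℕ) : S.c (yy S M) (sp M k) = ((co k : ℝ) : 𝕜) := by
  let φ : X →L[𝕜] 𝕜 := LinearMap.mkContinuous
    ((LinearMap.proj (sp M k) : (ℕ → 𝕜) →ₗ[𝕜] 𝕜).comp S.c) 1 (by
      intro x; rw [one_mul]; exact S.norm_le x _)
  have hφ : ∀ x, φ x = S.c x (sp M k) := fun x => rfl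
  rw [← hφ]
  have h2 : HasSum (fun j => φ (term S M j)) (φ (yy S M)) :=
    (summable_term S M).hasSum.mapL φ
  have h3 : ∀ j, φ (term S M j) = if j = k then ((co k : ℝ) : 𝕜) else 0 := by
    intro j
    rw [hφ]
    unfold term
    rw [map_smul, Pi.smul_apply, S.c_e, smul_eq_mul]
    by_cases h : j = k
    · subst h; simp
    · rw [Pi.single_eq_of_ne (fun h' => h ((sp_strictMono M).injective h'.symm)), mul_zero,
        if_neg h]
  have h4 : HasSum (fun j => φ (term S M j)) ((co k : ℝ) : 𝕜) := by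
    have : (fun j => φ (term S M j)) = fun j => if j = k then ((co k : ℝ) : 𝕜) else 0 :=
      funext h3
    rw [this]
    exact hasSum_ite_eq k _
  exact h2.unique h4

variable {S}

variable {T : X →L[𝕜] X}
  (hT : ∀ x n, S.c (T x) n = ((Real.exp (LL M lam (n + 1) - LL M lam n) : ℝ) : 𝕜) * S.c x (n + 1))

include h0 h1 hM hT

lemma loud {k t : ℕ} (ht1 : Fn.W M lam k ≤ t) (ht2 : t ≤ sp M k) :
    Real.exp k ≤ ‖(T ^ t) (yy S M)‖ := by
  refine le_trans ?_ (S.norm_le _ (sp M k - t))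
  rw [c_pow hT, Nat.sub_add_cancel ht2, c_yy, norm_mul, RCLike.norm_ofReal, RCLike.norm_ofReal,
    abs_of_pos (Real.exp_pos _), abs_of_pos (co_pos k)]
  unfold co LL
  rw [← Real.exp_add]
  refine Real.exp_le_exp.2 ?_
  have ht2' : (t : ℝ) ≤ (Fn.P M (k + 1) : ℝ) / 2 := by
    rw [← sp_cast]; exact_mod_cast ht2
  have h2 := Fn.L2 M h0 h1 hM k ht1 ht2'
  rw [Nat.cast_sub ht2, sp_cast]
  have h3 := five_pow_ge k
  linarith

lemma norm_pow_le_of {t k : ℕ} (ht : (t : ℝ) ≤ 1 / Fn.r M lam k) (x : X) :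
    ‖(T ^ t) x‖ ≤ Real.exp ((5 ^ k - 1) / 4 + 3) * ‖x‖ := by
  refine norm_pow_le hT t x fun n => ?_
  unfold LL
  push_cast
  exact Fn.L1 M h0 h1 hM k (by positivity) (by positivity) ht

lemma quiet {k t : ℕ} (ht1 : sp M k < t) (ht2 : (t : ℝ) ≤ 1 / Fn.r M lam (k + 1)) :
    ‖(T ^ t) (yy S M)‖ ≤ 2 * Real.exp (3 - k) := by
  have h2 : HasSum (fun j => (T ^ t) (term S M j)) ((T ^ t) (yy S M)) :=
    (summable_term S M).hasSum.mapL (T ^ t)
  have h3 : ∀ j, ‖(T ^ t) (term S M j)‖ ≤ Real.exp (3 - k) * (1 / 2) ^ j := by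
    intro j
    unfold term
    rw [map_smul, norm_smul, RCLike.norm_ofReal, abs_of_pos (co_pos j)]
    rcases Nat.lt_or_ge k j with h | h
    · have hr : 1 / Fn.r M lam (k + 1) ≤ 1 / Fn.r M lam j := by
        rcases Nat.lt_or_ge (k + 1) j with h' | h'
        · refine (Fn.inv_r_le M h0 h1 hM (k + 1)).trans ?_
          refine le_trans ?_ (Fn.P_le_inv_r M h0 h1 hM j)
          exact_mod_cast Fn.P_mono M h'
        · obtain rfl : j = k + 1 := by omega
          exact le_rfl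
      have h4 := norm_pow_le_of M h0 h1 hM hT (ht2.trans hr) (S.e (sp M j))
      have h5 : ‖(T ^ t) (S.e (sp M j))‖ ≤ Real.exp ((5 ^ j - 1) / 4 + 3) := by
        refine h4.trans ?_
        have := S.norm_e (sp M j)
        calc Real.exp ((5 ^ j - 1) / 4 + 3) * ‖S.e (sp M j)‖
            ≤ Real.exp ((5 ^ j - 1) / 4 + 3) * 1 := by gcongr
          _ = _ := mul_one _
      calc co j * ‖(T ^ t) (S.e (sp M j))‖ ≤ co j * Real.exp ((5 ^ j - 1) / 4 + 3) := by
            have := co_pos j; gcongr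
        _ = Real.exp (3 - 2 * j) := by unfold co; rw [← Real.exp_add]; congr 1; ring
        _ ≤ Real.exp ((3 - k) + -(j : ℝ)) := by
            refine Real.exp_le_exp.2 ?_
            have : (k : ℝ) ≤ j := by exact_mod_cast h.le
            linarith
        _ = Real.exp (3 - k) * Real.exp (-(j : ℝ)) := Real.exp_add _ _
        _ ≤ _ := by have := exp_neg_le j; gcongr
    · rw [pow_e_zero hT (lt_of_le_of_lt ((sp_strictMono M).monotone h) ht1), norm_zero, mul_zero]
      positivity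
  have h4 : HasSum (fun j : ℕ => Real.exp (3 - k) * (1 / 2 : ℝ) ^ j) (Real.exp (3 - k) * 2) :=
    hasSum_geometric_two.mul_left _
  have h5 := h2.norm_le_of_bounded h4 h3
  linarith

/-- Densities along the two kinds of times, for a scalar multiple and a null vector. -/
lemma scrambled_pair {g : ℝ} (hg : 0 < g) {D : ℕ → ℝ} (J₀ : ℕ)
    (hD : ∀ j ≥ J₀, D j = g * ‖(T ^ j) (yy S M)‖) :
    lowerDens (1 / lam) {j | D j < 1} = 0 ∧
    ∀ ε : ℝ, 0 < ε → lowerDens (1 / lam) {j | ε < D j} = 0 := by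
  have hP1 : ∀ k, (1 : ℝ) ≤ (Fn.P M (k + 1) : ℝ) := fun k => Fn.one_le_P M _
  have hPl : ∀ k : ℕ, 8 * ((k : ℝ) + 1) * 5 ^ k ≤ (Fn.P M (k + 1) : ℝ) ^ lam := by
    intro k
    have := Fn.W_ge M h0 h1 hM k
    unfold Fn.W at this
    rw [le_div_iff₀ (by positivity)] at this
    linarith
  constructor
  · obtain ⟨m, hm⟩ := exists_nat_gt (1 / g)
    refine dens_zero h0 (Fn.W M lam) (fun k => (sp M k : ℝ)) (max J₀ m) ?_ ?_ ?_ ?_ ?_
    · intro k hk j hj hjs
      have hkJ : J₀ ≤ k := (le_max_left _ _).trans hk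
      have hkm : m ≤ k := (le_max_right _ _).trans hk
      by_contra hcon
      push Not at hcon
      have hjk : J₀ ≤ j := by
        have h2 := Fn.W_ge M h0 h1 hM k
        have h3 : (k : ℝ) < 5 ^ k := by exact_mod_cast Nat.lt_pow_self (by norm_num)
        have h4 : (k : ℝ) < j := by linarith
        have h5 : k < j := by exact_mod_cast h4
        omega
      have h2 := loud M h0 h1 hM hT hcon.le (by exact_mod_cast hjs)
      have h3 : D j < 1 := hj
      rw [hD j hjk] at h3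
      have h4 := Real.add_one_le_exp (k : ℝ)
      have h5 : (m : ℝ) ≤ k := by exact_mod_cast hkm
      rw [div_lt_iff₀ hg] at hm
      nlinarith
    · intro k
      have hp : (0 : ℝ) < (Fn.P M (k + 1) : ℝ) ^ lam := by
        have := hP1 k; positivity
      rw [sp_cast, Real.div_rpow (by have := hP1 k; positivity) (by norm_num)]
      have h2 : (2 : ℝ) ^ lam ≤ 2 := by
        calc (2 : ℝ) ^ lam ≤ 2 ^ (1 : ℝ) := Real.rpow_le_rpow_of_exponent_le (by norm_num) h1
          _ = 2 := Real.rpow_one _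
      have h3 : (0 : ℝ) < 2 ^ lam := by positivity
      have e : ((k : ℝ) + 1) * Fn.W M lam k = (Fn.P M (k + 1) : ℝ) ^ lam / 8 := by
        unfold Fn.W; field_simp
      rw [e]
      have h4 : (Fn.P M (k + 1) : ℝ) ^ lam / 2 ≤ (Fn.P M (k + 1) : ℝ) ^ lam / 2 ^ lam := by
        gcongr
      linarith
    · intro k; exact (Fn.W_pos M lam k).le
    · intro k
      have hp : (0 : ℝ) < (Fn.P M (k + 1) : ℝ) ^ lam := by
        have := hP1 k; positivity
      rw [sp_cast, Real.div_rpow (by have := hP1 k; positivity) (by norm_num)]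
      have h2 : (2 : ℝ) ^ lam ≤ 2 := by
        calc (2 : ℝ) ^ lam ≤ 2 ^ (1 : ℝ) := Real.rpow_le_rpow_of_exponent_le (by norm_num) h1
          _ = 2 := Real.rpow_one _
      have h3 : (0 : ℝ) < 2 ^ lam := by positivity
      have h4 : (Fn.P M (k + 1) : ℝ) ^ lam / 2 ≤ (Fn.P M (k + 1) : ℝ) ^ lam / 2 ^ lam := by
        gcongr
      have h5 := hPl k
      have h6 : (1 : ℝ) ≤ 5 ^ k := one_le_pow₀ (by norm_num)
      have h7 : (0 : ℝ) ≤ k := by positivity
      have h8 : (k : ℝ) ≤ ((k : ℝ) + 1) * 5 ^ k := by nlinarith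
      linarith
    · intro k; positivity
  · intro ε hε
    obtain ⟨m, hm⟩ : ∃ m : ℕ, g * (2 * Real.exp (3 - m)) < ε := by
      have h2 : Tendsto (fun m : ℕ => g * (2 * Real.exp (3 - (m : ℝ)))) atTop (𝓝 (g * (2 * 0))) := by
        refine Tendsto.const_mul _ (Tendsto.const_mul _ ?_)
        refine Real.tendsto_exp_atBot.comp ?_
        exact tendsto_atBot_add_const_left _ _ (tendsto_neg_atTop_atBot.comp tendsto_natCast_atTop_atTop)
      simp only [mul_zero] at h2
      exact (h2.eventually (gt_mem_nhds hε)).exists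
    refine dens_zero h0 (fun k => (Fn.P M (k + 1) : ℝ)) (fun k => 1 / Fn.r M lam (k + 1))
      (max J₀ m) ?_ ?_ ?_ ?_ ?_
    · intro k hk j hj hjs
      have hkJ : J₀ ≤ k := (le_max_left _ _).trans hk
      have hkm : m ≤ k := (le_max_right _ _).trans hk
      by_contra hcon
      push Not at hcon
      have hjP : Fn.P M (k + 1) < j := by exact_mod_cast hcon
      have hjk : J₀ ≤ j := by
        have h2 := Fn.lt_P M (k + 1)
        omega
      have hsj : sp M k < j := by unfold sp; omega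
      have h2 := quiet M h0 h1 hM hT hsj hjs
      have h3 : ε < D j := hj
      rw [hD j hjk] at h3
      have h5 : (m : ℝ) ≤ k := by exact_mod_cast hkm
      have h6 : Real.exp (3 - (k : ℝ)) ≤ Real.exp (3 - m) := Real.exp_le_exp.2 (by linarith)
      have h7 : g * ‖(T ^ j) (yy S M)‖ ≤ g * (2 * Real.exp (3 - m)) := by
        gcongr; linarith
      linarith
    · intro k
      have h2 := Fn.B_le_inv_r_pow M h0 h1 hM (k + 1)
      have h3 : ((k : ℝ) + 1) * Fn.P M (k + 1) ≤ Fn.B M (k + 1) := by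
        have h4 : (k + 1) * Fn.P M (k + 1) ≤ Fn.B M (k + 1) := by
          unfold Fn.B Fn.Bf
          have h5 : 0 < 5 ^ (k + 1) := by positivity
          have h6 : k + 1 ≤ 8 * (k + 1 + 1) * 5 ^ (k + 1) := by nlinarith
          exact Nat.mul_le_mul_right _ h6
        exact_mod_cast h4
      have h4 : (0 : ℝ) < (1 / Fn.r M lam (k + 1)) ^ lam := by
        have := Fn.r_pos M lam (k + 1); positivity
      linarith
    · intro k; positivity
    · intro k
      have h2 := Fn.B_le_inv_r_pow M h0 h1 hM (k + 1)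
      have h3 : (k : ℝ) ≤ Fn.B M (k + 1) := by
        have h4 : k ≤ Fn.B M (k + 1) := by
          unfold Fn.B Fn.Bf
          have h5 : 0 < 5 ^ (k + 1) := by positivity
          have h6 : k ≤ 8 * (k + 1 + 1) * 5 ^ (k + 1) := by nlinarith
          exact h6.trans (Nat.le_mul_of_pos_right _ (Fn.P_pos M _))
        exact_mod_cast h4
      linarith
    · intro k
      have := Fn.r_pos M lam (k + 1); positivity

/-- The dense scrambled set. -/
theorem dense_scrambled : ∃ D' : Set X, Dense D' ∧ Scrambled lam T D' := by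
  have := separable S
  obtain ⟨u, hu⟩ : ∃ u : ℕ → X, (∀ n, u n ∈ Submodule.span 𝕜 (Set.range S.e)) ∧ DenseRange u := by
    obtain ⟨t, ht, htc, htd⟩ := S.span_dense.exists_countable_dense_subset
    have hne : t.Nonempty := htd.nonempty
    obtain ⟨u, hu⟩ := htc.exists_eq_range hne
    refine ⟨u, fun n => ht (by rw [hu]; exact Set.mem_range_self n), ?_⟩
    rw [DenseRange, ← hu]; exact htd
  obtain ⟨huS, hud⟩ := hu
  let x : ℕ → X := fun n => u (Nat.unpair n).1
  let Y : X := yy S M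
  have hYne : Y ≠ 0 := by
    intro h
    have h2 := c_yy S M 0
    change S.c Y (sp M 0) = _ at h2
    rw [h, map_zero] at h2
    have h3 : ((co 0 : ℝ) : 𝕜) = 0 := h2.symm
    have h4 : co 0 = 0 := by exact_mod_cast h3
    exact (co_pos 0).ne' h4
  refine ⟨{z | ∃ n : ℕ, ∃ a : ℝ, (1 / 2 : ℝ) ^ (n + 1) < a ∧ a < (1 / 2) ^ n ∧
    z = x n + (a : 𝕜) • Y}, ?_, ?_, 1, one_pos, ?_⟩
  · rw [Metric.dense_iff]
    intro z ε hε
    obtain ⟨j, hj⟩ := Metric.denseRange_iff.1 hud z (ε / 2) (by linarith)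
    obtain ⟨m, hm⟩ : ∃ m : ℕ, (1 / 2 : ℝ) ^ m * ‖Y‖ < ε / 2 := by
      have h2 : Tendsto (fun m : ℕ => (1 / 2 : ℝ) ^ m * ‖Y‖) atTop (𝓝 (0 * ‖Y‖)) :=
        (tendsto_pow_atTop_nhds_zero_of_lt_one (by norm_num) (by norm_num)).mul_const _
      rw [zero_mul] at h2
      exact (h2.eventually (gt_mem_nhds (by linarith))).exists
    set n := Nat.pair j m with hn
    have hmn : m ≤ n := Nat.right_le_pair _ _
    have hxn : x n = u j := by simp only [x, hn, Nat.unpair_pair]
    refine ⟨x n + (((3 / 4 * (1 / 2) ^ n : ℝ)) : 𝕜) • Y, ?_, n, _, ?_, ?_, rfl⟩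
    · rw [Metric.mem_ball, dist_comm, dist_eq_norm, hxn]
      have h2 : ‖(((3 / 4 * (1 / 2) ^ n : ℝ)) : 𝕜) • Y‖ < ε / 2 := by
        rw [norm_smul, RCLike.norm_ofReal, abs_of_nonneg (by positivity)]
        refine lt_of_le_of_lt ?_ hm
        have h3 : (1 / 2 : ℝ) ^ n ≤ (1 / 2) ^ m :=
          pow_le_pow_of_le_one (by norm_num) (by norm_num) hmn
        have h4 : (0 : ℝ) < (1 / 2) ^ n := by positivity
        gcongr
        linarith
      calc ‖z - (u j + (((3 / 4 * (1 / 2) ^ n : ℝ)) : 𝕜) • Y)‖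
          = ‖(z - u j) - (((3 / 4 * (1 / 2) ^ n : ℝ)) : 𝕜) • Y‖ := by congr 1; abel
        _ ≤ ‖z - u j‖ + ‖(((3 / 4 * (1 / 2) ^ n : ℝ)) : 𝕜) • Y‖ := norm_sub_le _ _
        _ < ε / 2 + ε / 2 := by rw [← dist_eq_norm]; gcongr
        _ = ε := by ring
    · have : (0 : ℝ) < (1 / 2) ^ n := by positivity
      rw [pow_succ]; linarith
    · have : (0 : ℝ) < (1 / 2) ^ n := by positivity
      linarith
  · intro hc
    have hsub : (fun a : ℝ => x 0 + (a : 𝕜) • Y) '' Set.Ioo (1 / 2) 1 ⊆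
        {z | ∃ n : ℕ, ∃ a : ℝ, (1 / 2 : ℝ) ^ (n + 1) < a ∧ a < (1 / 2) ^ n ∧
          z = x n + (a : 𝕜) • Y} := by
      rintro _ ⟨a, ha, rfl⟩
      exact ⟨0, a, by simpa using ha.1, by simpa using ha.2, rfl⟩
    have h2 := hc.mono hsub
    have hinj : Function.Injective (fun a : ℝ => x 0 + (a : 𝕜) • Y) := by
      intro a b hab
      have h3 : (a : 𝕜) • Y = (b : 𝕜) • Y := add_left_cancel hab
      have h4 := smul_left_injective 𝕜 hYne h3
      exact_mod_cast h4
    have h3 := h2.preimage_of_injOn hinj.injOn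
    rw [Set.preimage_image_eq _ hinj] at h3
    have h4 : ¬ (Set.Ioo (1 / 2 : ℝ) 1).Countable := by
      intro h5
      have h6 := h5.le_aleph0
      rw [Cardinal.mk_Ioo_real (by norm_num)] at h6
      exact absurd h6 (not_le.2 Cardinal.aleph0_lt_continuum)
    exact h4 h3
  · rintro _ ⟨n, a, ha1, ha2, rfl⟩ _ ⟨m, b, hb1, hb2, rfl⟩ hne
    have hab : a ≠ b := by
      intro hab
      apply hne
      rcases lt_trichotomy n m with h | h | h
      · exfalso
        have : (1 / 2 : ℝ) ^ m ≤ (1 / 2) ^ (n + 1) :=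
          pow_le_pow_of_le_one (by norm_num) (by norm_num) h
        linarith
      · rw [h, hab]
      · exfalso
        have : (1 / 2 : ℝ) ^ n ≤ (1 / 2) ^ (m + 1) :=
          pow_le_pow_of_le_one (by norm_num) (by norm_num) h
        linarith
    obtain ⟨N₁, hN₁⟩ := null_of_span hT (huS (Nat.unpair n).1)
    obtain ⟨N₂, hN₂⟩ := null_of_span hT (huS (Nat.unpair m).1)
    refine scrambled_pair M h0 h1 hM hT (g := |a - b|) (abs_pos.2 (sub_ne_zero.2 hab))
      (max N₁ N₂) ?_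
    intro j hj
    have e1 : (T ^ j) (x n + (a : 𝕜) • Y) - (T ^ j) (x m + (b : 𝕜) • Y) =
        (((a - b : ℝ)) : 𝕜) • (T ^ j) Y := by
      have h2 : (T ^ j) (x n) = 0 := hN₁ j (le_of_max_le_left hj)
      have h3 : (T ^ j) (x m) = 0 := hN₂ j (le_of_max_le_right hj)
      rw [map_add, map_add, h2, h3, map_smul, map_smul]
      push_cast
      module
    rw [e1, norm_smul, RCLike.norm_ofReal]

/-- Not chaotic for smaller exponents. -/
theorem not_scrambled {lam' : ℝ} (hl0 : 0 < lam') (hl : lam' < lam) (S' : Set X) :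
    ¬ Scrambled lam' T S' := by
  rintro ⟨hS, σ, hσ, h⟩
  have := separable S
  obtain ⟨x, hx, y, hy, hxy, hd⟩ : ∃ x ∈ S', ∃ y ∈ S', x ≠ y ∧ dist x y < σ / Real.exp 4 := by
    by_contra hcon
    push Not at hcon
    apply hS
    set δ := σ / Real.exp 4 with hδ
    have hδ0 : 0 < δ := by positivity
    have hdisj : S'.PairwiseDisjoint (fun x => Metric.ball x (δ / 2)) := by
      intro x hx y hy hxy
      refine Metric.ball_disjoint_ball ?_
      have := hcon x hx y hy hxy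
      linarith
    exact hdisj.countable_of_isOpen (fun x _ => Metric.isOpen_ball)
      (fun x _ => ⟨x, Metric.mem_ball_self (by linarith)⟩)
  have h2 := (h x hx y hy hxy).1
  refine dens_pos hl0 ?_ h2
  obtain ⟨N₀, hN₀⟩ := Fn.count M h0 h1 hM hl0 hl
  refine ⟨N₀, fun N hN => ?_⟩
  obtain ⟨F, hF, hFc⟩ := hN₀ N hN
  refine ⟨F, fun t ht => ?_, hFc⟩
  obtain ⟨h3, h4, h5⟩ := hF t ht
  refine ⟨h3, h4, ?_⟩
  change ‖(T ^ t) x - (T ^ t) y‖ < σ
  rw [← map_sub]
  have h6 := norm_pow_le hT t (x - y) (C := 4) (by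
    intro n
    unfold LL
    push_cast
    exact h5 n (by positivity))
  rw [dist_eq_norm] at hd
  calc ‖(T ^ t) (x - y)‖ ≤ Real.exp 4 * ‖x - y‖ := h6
    _ < Real.exp 4 * (σ / Real.exp 4) := by gcongr
    _ = σ := by have := Real.exp_pos 4; field_simp

end

/-- **The theorem for an abstract sequence space.** -/
theorem exact_exponent {lam : ℝ} (h0 : 0 < lam) (h1 : lam ≤ 1) :
    ∃ ω : ℕ → ℝ, (∀ n, 0 < ω n) ∧ (∃ C, ∀ n, ω n ≤ C) ∧ ∃ T : X →L[𝕜] X,
      (∀ x n, S.c (T x) n = ((ω (n + 1) : ℝ) : 𝕜) * S.c x (n + 1)) ∧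
      (∃ D' : Set X, Dense D' ∧ Scrambled lam T D') ∧
      ∀ lam' : ℝ, 0 < lam' → lam' < lam → ¬ ∃ D' : Set X, Scrambled lam' T D' := by
  obtain ⟨M, hM⟩ := exists_nat_ge (4 / lam ^ 2)
  let ω : ℕ → ℝ := fun n => Real.exp (LL M lam n - LL M lam (n - 1))
  have hω : ∀ n, ω (n + 1) = Real.exp (LL M lam (n + 1) - LL M lam n) := by
    intro n; simp only [ω, Nat.add_sub_cancel]
  have hbd : ∀ n, ω (n + 1) ≤ Real.exp 2 := by
    intro n
    rw [hω]
    refine Real.exp_le_exp.2 ?_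
    have := Fn.L3 M h0 h1 hM (s := (n : ℝ)) (t := 1) (by positivity) zero_le_one
    unfold LL
    push_cast
    linarith
  obtain ⟨T, hT⟩ := exists_op S 1 (fun n => ((ω (n + 1) : ℝ) : 𝕜)) (Real.exp 2)
    (Real.exp_pos _).le (by
      intro n
      rw [RCLike.norm_ofReal, abs_of_pos (Real.exp_pos _)]
      exact hbd n)
  have hT' : ∀ x n, S.c (T x) n =
      ((Real.exp (LL M lam (n + 1) - LL M lam n) : ℝ) : 𝕜) * S.c x (n + 1) := by
    intro x n; rw [hT, hω]
  refine ⟨ω, fun n => Real.exp_pos _, ⟨max (ω 0) (Real.exp 2), ?_⟩, T, hT,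
    dense_scrambled M h0 h1 hM hT', ?_⟩
  · intro n
    rcases n with _ | n
    · exact le_max_left _ _
    · exact (hbd n).trans (le_max_right _ _)
  · rintro lam' hl0 hl ⟨S', hS'⟩
    exact not_scrambled M h0 h1 hM hT' hl0 hl S' hS'

end Pool.Agent.X86.DC.Seq
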