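import Mathlib

set_option autoImplicit false

/-!
# A weighted translation semigroup on `C₀(ℕ × ℝ≥0)`
-/

namespace Pool.Agent.X86.DC

open Filter Topology MeasureTheory
open scoped NNReal ENNReal ZeroAtInfty

/-- `J_i = 64^(i²)`. -/
noncomputable def J (i : ℕ) : ℝ := 64 ^ (i ^ 2)
/-- The places `N_i = 4^i J_i`. -/
noncomputable def N (i : ℕ) : ℝ := 4 ^ i * J i
/-- The widths `K_i = 2 i J_i`. -/
noncomputable def K (i : ℕ) : ℝ := 2 * i * J i

lemma one_le_J (i : ℕ) : 1 ≤ J i := one_le_pow₀ (by norm_num)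
lemma J_pos (i : ℕ) : 0 < J i := by have := one_le_J i; linarith

lemma J_succ (n : ℕ) : J (n + 1) = 64 ^ (2 * n + 1) * J n := by
  unfold J; rw [← pow_add]; congr 1; ring

lemma J_mono : Monotone J := by
  intro a b h
  exact pow_le_pow_right₀ (by norm_num) (Nat.pow_le_pow_left h 2)

lemma K_nonneg (i : ℕ) : 0 ≤ K i := by have := J_pos i; unfold K; positivity

lemma two_mul_le (i : ℕ) : (2 * i : ℝ) ≤ 2 * 2 ^ i := by
  have : (i : ℝ) ≤ 2 ^ i := by exact_mod_cast Nat.lt_two_pow_self.le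
  linarith

lemma K_mul (i : ℕ) : K i * 2 ^ i ≤ 2 * N i := by
  have h1 := two_mul_le i
  have h2 := J_pos i
  have h3 : (4 : ℝ) ^ i = 2 ^ i * 2 ^ i := by rw [← mul_pow]; norm_num
  have h4 : (0 : ℝ) < 2 ^ i := by positivity
  unfold K N
  rw [h3]
  calc 2 * (i : ℝ) * J i * 2 ^ i ≤ (2 * 2 ^ i) * J i * 2 ^ i := by gcongr
    _ = 2 * (2 ^ i * 2 ^ i * J i) := by ring

lemma K_le_N (i : ℕ) : K i ≤ N i := by
  have h2 := J_pos i
  unfold K N
  refine mul_le_mul_of_nonneg_right ?_ h2.le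
  have h3 : (4 : ℝ) ^ i = 2 ^ i * 2 ^ i := by rw [← mul_pow]; norm_num
  rcases Nat.eq_zero_or_pos i with h | h
  · subst h; norm_num
  · have h1 := two_mul_le i
    have h4 : (2 : ℝ) ≤ 2 ^ i := by
      calc (2 : ℝ) = 2 ^ 1 := by norm_num
        _ ≤ 2 ^ i := pow_le_pow_right₀ (by norm_num) h
    rw [h3]
    nlinarith

lemma N_mono : Monotone N := by
  intro a b h
  unfold N
  have := J_mono h
  have h2 := J_pos a
  have h3 : (4 : ℝ) ^ a ≤ 4 ^ b := pow_le_pow_right₀ (by norm_num) h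
  gcongr

lemma K_mono : Monotone K := by
  intro a b h
  unfold K
  have := J_mono h
  have h2 := J_pos a
  gcongr

/-- The start of the quiet period. -/
noncomputable def aa (n : ℕ) : ℝ := N n + K n
/-- The end of the quiet period. -/
noncomputable def bb (n : ℕ) : ℝ := J (n + 1)

lemma aa_mul (n : ℕ) : aa n * 2 ^ n ≤ 2 * bb n := by
  have h1 := K_le_N n
  have h2 := J_pos n
  unfold aa bb
  rw [J_succ]
  have h3 : (8 : ℝ) ^ n ≤ 64 ^ (2 * n + 1) := by
    calc (8 : ℝ) ^ n ≤ 64 ^ n := by gcongr; norm_num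
      _ ≤ 64 ^ (2 * n + 1) := pow_le_pow_right₀ (by norm_num) (by omega)
  have h4 : (8 : ℝ) ^ n = 4 ^ n * 2 ^ n := by rw [← mul_pow]; norm_num
  calc (N n + K n) * 2 ^ n ≤ (N n + N n) * 2 ^ n := by gcongr
    _ = 2 * (8 ^ n * J n) := by unfold N; rw [h4]; ring
    _ ≤ 2 * (64 ^ (2 * n + 1) * J n) := by gcongr

lemma bb_sub_aa (n : ℕ) : (n : ℝ) ≤ bb n - aa n := by
  have h1 := K_le_N n
  have h2 := one_le_J n
  have h3 : (4 : ℝ) * 8 ^ n ≤ 64 ^ (2 * n + 1) := by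
    calc (4 : ℝ) * 8 ^ n ≤ 64 * 64 ^ (2 * n) := by
          gcongr
          · norm_num
          · calc (8 : ℝ) ^ n ≤ 64 ^ n := by gcongr; norm_num
              _ ≤ 64 ^ (2 * n) := pow_le_pow_right₀ (by norm_num) (by omega)
      _ = 64 ^ (2 * n + 1) := by rw [pow_succ]; ring
  have h4 : (4 : ℝ) ^ n ≤ 8 ^ n := by gcongr; norm_num
  have h5 : (n : ℝ) ≤ 8 ^ n := by
    have h6 : (n : ℝ) ≤ 2 ^ n := by exact_mod_cast Nat.lt_two_pow_self.le
    exact h6.trans (by gcongr; norm_num)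
  have h7 : (0 : ℝ) < 8 ^ n := by positivity
  unfold aa bb
  rw [J_succ]
  have h8 : N n ≤ 8 ^ n * J n := by unfold N; gcongr
  have h9 : 4 * 8 ^ n * J n ≤ 64 ^ (2 * n + 1) * J n := by gcongr
  nlinarith

lemma aa_nonneg (n : ℕ) : 0 ≤ aa n := by
  have h1 := K_nonneg n
  have h2 := J_pos n
  unfold aa N; positivity

lemma bb_mono : Monotone bb := fun a b h => J_mono (by omega)

lemma n_le_N (n : ℕ) : (n : ℝ) ≤ N n := by
  have h6 : (n : ℝ) ≤ 2 ^ n := by exact_mod_cast Nat.lt_two_pow_self.le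
  have h2 := one_le_J n
  unfold N
  calc (n : ℝ) ≤ 4 ^ n := h6.trans (by gcongr; norm_num)
    _ ≤ 4 ^ n * J n := le_mul_of_one_le_right (by positivity) h2

lemma n_le_aa (n : ℕ) : (n : ℝ) ≤ aa n := by
  have := n_le_N n; have := K_nonneg n; unfold aa; linarith

/-- The logarithm of the `i`-th weight: a tent. -/
noncomputable def Lam (i : ℕ) (s : ℝ) : ℝ := max 0 (2 * i - |s - N i| / J i)

lemma Lam_nonneg (i : ℕ) (s : ℝ) : 0 ≤ Lam i s := le_max_left _ _

lemma Lam_sub_le (i : ℕ) {s s' : ℝ} (h : s ≤ s') : Lam i s' - Lam i s ≤ (s' - s) / J i := by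
  have hJ := J_pos i
  have h1 : |s - N i| ≤ |s' - N i| + (s' - s) := by
    have := abs_sub_abs_le_abs_sub (s - N i) (s' - N i)
    have h3 : |s - N i - (s' - N i)| = s' - s := by
      rw [abs_sub_comm, abs_of_nonneg (by linarith)]; ring
    linarith
  have h2 : |s - N i| / J i ≤ |s' - N i| / J i + (s' - s) / J i := by
    rw [← add_div]; gcongr
  have h4 : 0 ≤ (s' - s) / J i := by
    have : 0 ≤ s' - s := by linarith
    positivity
  unfold Lam
  have : max 0 (2 * (i : ℝ) - |s' - N i| / J i) ≤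
      max 0 (2 * (i : ℝ) - |s - N i| / J i) + (s' - s) / J i := by
    refine max_le (by have := le_max_left 0 (2 * (i : ℝ) - |s - N i| / J i); linarith) ?_
    have := le_max_right 0 (2 * (i : ℝ) - |s - N i| / J i)
    linarith
  linarith

lemma Lam_zero_right (i : ℕ) {s : ℝ} (h : aa i ≤ s) : Lam i s = 0 := by
  have hJ := J_pos i
  unfold Lam
  refine max_eq_left ?_
  unfold aa at h
  have h0 := K_nonneg i
  rw [abs_of_nonneg (by linarith), sub_nonpos, le_div_iff₀ hJ]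
  unfold K at h
  linarith

lemma Lam_zero_left (i : ℕ) {s : ℝ} (h : s ≤ N i - K i) : Lam i s = 0 := by
  have hJ := J_pos i
  unfold Lam
  refine max_eq_left ?_
  have h0 := K_nonneg i
  rw [abs_of_nonpos (by linarith), sub_nonpos, le_div_iff₀ hJ]
  unfold K at h
  linarith

lemma Lam_N (i : ℕ) : Lam i (N i) = 2 * i := by
  unfold Lam
  rw [sub_self, abs_zero, zero_div, sub_zero, max_eq_right (by positivity)]

lemma continuous_Lam (i : ℕ) : Continuous (Lam i) := by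
  unfold Lam
  fun_prop

/-- The multiplier of `T t`. -/
noncomputable def mul (t : ℝ≥0) (p : ℕ × ℝ≥0) : ℝ := Real.exp (Lam p.1 (p.2 + t) - Lam p.1 p.2)

lemma mul_pos (t : ℝ≥0) (p : ℕ × ℝ≥0) : 0 < mul t p := Real.exp_pos _

lemma mul_le (t : ℝ≥0) (p : ℕ × ℝ≥0) : mul t p ≤ Real.exp t := by
  unfold mul
  refine Real.exp_le_exp.2 ?_
  have h1 := Lam_sub_le p.1 (s := p.2) (s' := p.2 + t) (by have := t.2; simp)
  refine h1.trans ?_
  rw [add_sub_cancel_left]
  exact div_le_self t.2 (one_le_J _)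

lemma mul_ge (t : ℝ≥0) (p : ℕ × ℝ≥0) : Real.exp (-t) ≤ mul t p := by
  unfold mul
  refine Real.exp_le_exp.2 ?_
  have hJ := J_pos p.1
  have h1 : |(p.2 : ℝ) + t - N p.1| ≤ |(p.2 : ℝ) - N p.1| + t := by
    calc |(p.2 : ℝ) + t - N p.1| = |((p.2 : ℝ) - N p.1) + t| := by congr 1; ring
      _ ≤ |(p.2 : ℝ) - N p.1| + |(t : ℝ)| := abs_add_le _ _
      _ = _ := by rw [abs_of_nonneg t.coe_nonneg]
  have h2 : |(p.2 : ℝ) + t - N p.1| / J p.1 ≤ |(p.2 : ℝ) - N p.1| / J p.1 + t := by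
    calc |(p.2 : ℝ) + t - N p.1| / J p.1 ≤ (|(p.2 : ℝ) - N p.1| + t) / J p.1 := by gcongr
      _ = |(p.2 : ℝ) - N p.1| / J p.1 + t / J p.1 := by rw [add_div]
      _ ≤ _ := by gcongr; exact div_le_self t.2 (one_le_J _)
  have h3 : Lam p.1 p.2 ≤ Lam p.1 (p.2 + t) + t := by
    unfold Lam
    refine max_le ?_ ?_
    · have := le_max_left 0 (2 * (p.1 : ℝ) - |(p.2 : ℝ) + t - N p.1| / J p.1)
      have := t.2; positivity
    · have := le_max_right 0 (2 * (p.1 : ℝ) - |(p.2 : ℝ) + t - N p.1| / J p.1)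
      linarith
  linarith

lemma mul_quiet {n : ℕ} {t : ℝ≥0} (h1 : aa n ≤ t) (h2 : (t : ℝ) ≤ bb n) (p : ℕ × ℝ≥0) :
    mul t p ≤ Real.exp 1 := by
  unfold mul
  refine Real.exp_le_exp.2 ?_
  rcases le_or_gt p.1 n with h | h
  · have h3 : aa p.1 ≤ p.2 + t := by
      have h4 : aa p.1 ≤ aa n := add_le_add (N_mono h) (K_mono h)
      have := p.2.2
      have h5 : (0 : ℝ) ≤ p.2 := p.2.2
      linarith
    rw [Lam_zero_right _ h3]
    have := Lam_nonneg p.1 p.2
    linarith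
  · have h3 := Lam_sub_le p.1 (s := p.2) (s' := p.2 + t) (by simp)
    refine h3.trans ?_
    rw [add_sub_cancel_left, div_le_one (J_pos _)]
    exact h2.trans (J_mono h)

lemma mul_mul (s t : ℝ≥0) (p : ℕ × ℝ≥0) : mul s p * mul t (p.1, p.2 + s) = mul (s + t) p := by
  unfold mul
  rw [← Real.exp_add]
  congr 1
  push_cast
  rw [add_assoc]
  ring

lemma continuous_mul (t : ℝ≥0) : Continuous (mul t) := by
  unfold mul
  refine continuous_prod_of_discrete_left.2 fun i => ?_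
  refine Real.continuous_exp.comp (((continuous_Lam i).comp ?_).sub ((continuous_Lam i).comp ?_))
  · fun_prop
  · fun_prop

variable (𝕜 : Type) [RCLike 𝕜]

/-- The shift of the underlying space. -/
def sh (t : ℝ≥0) (p : ℕ × ℝ≥0) : ℕ × ℝ≥0 := (p.1, p.2 + t)

lemma dist_sh_sh (t : ℝ≥0) (p q : ℕ × ℝ≥0) : dist (sh t p) (sh t q) = dist p q := by
  simp only [sh, Prod.dist_eq]
  congr 1
  rw [NNReal.dist_eq, NNReal.dist_eq]
  push_cast
  congr 1
  ring

lemma dist_sh (t : ℝ≥0) (p : ℕ × ℝ≥0) : dist (sh t p) p = t := by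
  simp only [sh, Prod.dist_eq, dist_self, NNReal.dist_eq]
  push_cast
  rw [add_sub_cancel_left, abs_of_nonneg t.coe_nonneg, max_eq_right t.coe_nonneg]

lemma isClosedEmbedding_sh (t : ℝ≥0) : Topology.IsClosedEmbedding (sh t) :=
  (Isometry.of_dist_eq (dist_sh_sh t)).isClosedEmbedding

/-- The space. -/
abbrev E : Type := C₀(ℕ × ℝ≥0, 𝕜)

variable {𝕜}

lemma norm_apply_le (y : E 𝕜) (p : ℕ × ℝ≥0) : ‖y p‖ ≤ ‖y‖ := by
  rw [← ZeroAtInftyContinuousMap.norm_toBCF_eq_norm]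
  exact y.toBCF.norm_coe_le_norm p

lemma norm_le_of {y : E 𝕜} {C : ℝ} (hC : 0 ≤ C) (h : ∀ p, ‖y p‖ ≤ C) : ‖y‖ ≤ C := by
  rw [← ZeroAtInftyContinuousMap.norm_toBCF_eq_norm]
  exact (BoundedContinuousFunction.norm_le hC).2 h

/-- The image function. -/
noncomputable def imgFun (t : ℝ≥0) (y : E 𝕜) : E 𝕜 where
  toFun p := ((mul t p : ℝ) : 𝕜) * y (sh t p)
  continuous_toFun := by
    refine (RCLike.continuous_ofReal.comp (continuous_mul t)).mul ?_
    exact (map_continuous y).comp (isClosedEmbedding_sh t).continuous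
  zero_at_infty' := by
    have h1 : Tendsto (fun p => y (sh t p)) (cocompact (ℕ × ℝ≥0)) (𝓝 0) :=
      (zero_at_infty y).comp (isClosedEmbedding_sh t).tendsto_cocompact
    have h2 : Tendsto (fun p => Real.exp t * ‖y (sh t p)‖) (cocompact (ℕ × ℝ≥0)) (𝓝 0) := by
      have := (h1.norm).const_mul (Real.exp t)
      simpa using this
    refine squeeze_zero_norm (fun p => ?_) h2
    rw [norm_mul, RCLike.norm_ofReal, abs_of_pos (mul_pos t p)]
    exact mul_le_mul_of_nonneg_right (mul_le t p) (norm_nonneg _)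

lemma imgFun_apply (t : ℝ≥0) (y : E 𝕜) (p : ℕ × ℝ≥0) :
    imgFun t y p = ((mul t p : ℝ) : 𝕜) * y (sh t p) := rfl

lemma norm_imgFun_apply (t : ℝ≥0) (y : E 𝕜) (p : ℕ × ℝ≥0) :
    ‖imgFun t y p‖ = mul t p * ‖y (sh t p)‖ := by
  rw [imgFun_apply, norm_mul, RCLike.norm_ofReal, abs_of_pos (mul_pos t p)]

variable (𝕜)

/-- The operators, for times in `ℝ≥0`. -/
noncomputable def TT (t : ℝ≥0) : E 𝕜 →L[𝕜] E 𝕜 :=
  LinearMap.mkContinuous
    { toFun := imgFun t
      map_add' := by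
        intro x y; ext p
        simp only [ZeroAtInftyContinuousMap.add_apply, imgFun_apply]; ring
      map_smul' := by
        intro c x; ext p
        simp only [ZeroAtInftyContinuousMap.smul_apply, imgFun_apply, smul_eq_mul,
          RingHom.id_apply]; ring }
    (Real.exp t) (by
      intro y
      refine norm_le_of (by positivity) fun p => ?_
      change ‖imgFun t y p‖ ≤ _
      rw [norm_imgFun_apply]
      exact mul_le_mul (mul_le t p) (norm_apply_le y _) (norm_nonneg _) (Real.exp_pos _).le)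

variable {𝕜}

lemma TT_apply (t : ℝ≥0) (y : E 𝕜) (p : ℕ × ℝ≥0) :
    TT 𝕜 t y p = ((mul t p : ℝ) : 𝕜) * y (sh t p) := rfl

lemma norm_TT_apply (t : ℝ≥0) (y : E 𝕜) (p : ℕ × ℝ≥0) :
    ‖TT 𝕜 t y p‖ = mul t p * ‖y (sh t p)‖ := norm_imgFun_apply t y p

lemma TT_zero : TT 𝕜 0 = 1 := by
  ext y p
  rw [TT_apply]
  have : sh 0 p = p := by simp [sh]
  rw [this]
  simp [mul]

lemma TT_add (s t : ℝ≥0) : TT 𝕜 (s + t) = TT 𝕜 s * TT 𝕜 t := by
  ext y p
  change TT 𝕜 (s + t) y p = TT 𝕜 s (TT 𝕜 t y) p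
  rw [TT_apply, TT_apply, TT_apply, ← mul_mul]
  have : sh t (sh s p) = sh (s + t) p := by simp [sh, add_assoc]
  rw [this]
  simp only [sh]
  push_cast
  ring

lemma norm_TT_le (t : ℝ≥0) (y : E 𝕜) : ‖TT 𝕜 t y‖ ≤ Real.exp t * ‖y‖ := by
  refine norm_le_of (by positivity) fun p => ?_
  rw [norm_TT_apply]
  exact mul_le_mul (mul_le t p) (norm_apply_le y _) (norm_nonneg _) (Real.exp_pos _).le

lemma norm_TT_quiet {n : ℕ} {t : ℝ≥0} (h1 : aa n ≤ t) (h2 : (t : ℝ) ≤ bb n) (y : E 𝕜) :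
    ‖TT 𝕜 t y‖ ≤ Real.exp 1 * ‖y‖ := by
  refine norm_le_of (by positivity) fun p => ?_
  rw [norm_TT_apply]
  exact mul_le_mul (mul_quiet h1 h2 p) (norm_apply_le y _) (norm_nonneg _) (Real.exp_pos _).le

/-- Strong continuity at zero. -/
lemma TT_near_zero (y : E 𝕜) {ε : ℝ} (hε : 0 < ε) :
    ∃ δ > 0, ∀ t : ℝ≥0, (t : ℝ) < δ → ‖TT 𝕜 t y - y‖ ≤ ε := by
  have huc := ZeroAtInftyContinuousMap.uniformContinuous y
  rw [Metric.uniformContinuous_iff] at huc
  obtain ⟨δ₁, hδ₁, h1⟩ := huc (ε / 2) (by linarith)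
  have h2 : Tendsto (fun t : ℝ => (Real.exp t - 1) * ‖y‖) (𝓝 0) (𝓝 0) := by
    have : Tendsto (fun t : ℝ => (Real.exp t - 1) * ‖y‖) (𝓝 0) (𝓝 ((Real.exp 0 - 1) * ‖y‖)) :=
      (((Real.continuous_exp.tendsto 0).sub_const 1).mul_const _)
    simpa using this
  obtain ⟨δ₂, hδ₂, h3⟩ := Metric.tendsto_nhds_nhds.1 h2 (ε / 2) (by linarith)
  refine ⟨min δ₁ δ₂, lt_min hδ₁ hδ₂, ?_⟩
  intro t ht
  have ht1 : (t : ℝ) < δ₁ := lt_of_lt_of_le ht (min_le_left _ _)
  have ht2 : (t : ℝ) < δ₂ := lt_of_lt_of_le ht (min_le_right _ _)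
  have ht0 : (0 : ℝ) ≤ t := t.2
  have h4 : (Real.exp t - 1) * ‖y‖ ≤ ε / 2 := by
    have := h3 (x := (t : ℝ)) (by rw [dist_zero_right, Real.norm_eq_abs, abs_of_nonneg ht0]; exact ht2)
    rw [dist_zero_right, Real.norm_eq_abs] at this
    exact (le_abs_self _).trans this.le
  refine norm_le_of hε.le fun p => ?_
  have e : (TT 𝕜 t y - y) p = (((mul t p : ℝ) : 𝕜) - 1) * y (sh t p) + (y (sh t p) - y p) := by
    rw [ZeroAtInftyContinuousMap.sub_apply, TT_apply]; ring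
  rw [e]
  have h5 : |mul t p - 1| ≤ Real.exp t - 1 := by
    rw [abs_le]
    have ha := mul_le t p
    have hb := mul_ge t p
    constructor
    · have h6 : 2 ≤ Real.exp t + Real.exp (-t) := by
        have h7 : Real.exp t * Real.exp (-t) = 1 := by rw [← Real.exp_add]; simp
        have h8 := Real.exp_pos (t : ℝ)
        have h9 := Real.exp_pos (-(t : ℝ))
        nlinarith [sq_nonneg (Real.exp t - Real.exp (-t)), sq_nonneg (Real.exp t + Real.exp (-t) - 2)]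
      linarith
    · linarith
  have h6 : ‖(((mul t p : ℝ) : 𝕜) - 1)‖ ≤ Real.exp t - 1 := by
    have : (((mul t p : ℝ) : 𝕜) - 1) = ((mul t p - 1 : ℝ) : 𝕜) := by push_cast; ring
    rw [this, RCLike.norm_ofReal]; exact h5
  calc ‖(((mul t p : ℝ) : 𝕜) - 1) * y (sh t p) + (y (sh t p) - y p)‖
      ≤ ‖(((mul t p : ℝ) : 𝕜) - 1) * y (sh t p)‖ + ‖y (sh t p) - y p‖ := norm_add_le _ _
    _ ≤ (Real.exp t - 1) * ‖y‖ + ε / 2 := by
        gcongr
        · rw [norm_mul]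
          exact mul_le_mul h6 (norm_apply_le y _) (norm_nonneg _) (by
            have := Real.add_one_le_exp (t : ℝ); linarith)
        · rw [← dist_eq_norm]
          exact (h1 (by rw [dist_sh]; exact ht1)).le
    _ ≤ ε := by linarith

lemma TT_dist (y : E 𝕜) {a b : ℝ≥0} (h : a ≤ b) :
    ‖TT 𝕜 b y - TT 𝕜 a y‖ ≤ Real.exp a * ‖TT 𝕜 (b - a) y - y‖ := by
  have h1 : TT 𝕜 b y - TT 𝕜 a y = TT 𝕜 a (TT 𝕜 (b - a) y - y) := by
    rw [map_sub]
    have : TT 𝕜 b = TT 𝕜 a * TT 𝕜 (b - a) := by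
      rw [← TT_add, add_tsub_cancel_of_le h]
    rw [this]; rfl
  rw [h1]
  exact norm_TT_le _ _

lemma continuous_TT (y : E 𝕜) : Continuous fun t => TT 𝕜 t y := by
  rw [Metric.continuous_iff]
  intro t₀ ε hε
  obtain ⟨δ, hδ, h⟩ := TT_near_zero y (ε := ε / (2 * Real.exp (t₀ + 1))) (by positivity)
  refine ⟨min δ 1, lt_min hδ one_pos, ?_⟩
  intro t ht
  have ht1 : dist t t₀ < δ := lt_of_lt_of_le ht (min_le_left _ _)
  have ht2 : dist t t₀ < 1 := lt_of_lt_of_le ht (min_le_right _ _)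
  rw [NNReal.dist_eq] at ht1 ht2
  rw [abs_lt] at ht1 ht2
  have key : ∀ a b : ℝ≥0, a ≤ b → (b : ℝ) - a < δ → (a : ℝ) ≤ t₀ + 1 →
      ‖TT 𝕜 b y - TT 𝕜 a y‖ < ε := by
    intro a b hab h1 h2
    have h3 := TT_dist y hab
    have h4 := h (b - a) (by rw [NNReal.coe_sub hab]; exact h1)
    calc ‖TT 𝕜 b y - TT 𝕜 a y‖ ≤ Real.exp a * ‖TT 𝕜 (b - a) y - y‖ := h3
      _ ≤ Real.exp (t₀ + 1) * (ε / (2 * Real.exp (t₀ + 1))) := by gcongr
      _ = ε / 2 := by have := Real.exp_pos ((t₀ : ℝ) + 1); field_simp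
      _ < ε := by linarith
  rw [dist_eq_norm]
  rcases le_total t t₀ with hle | hle
  · rw [norm_sub_rev]
    exact key t t₀ hle (by linarith) (by have : (t : ℝ) ≤ t₀ := hle; linarith)
  · exact key t₀ t hle (by linarith) (by linarith)

/-- The functions vanishing for large `s`. -/
def X0 (𝕜 : Type) [RCLike 𝕜] : Submodule 𝕜 (E 𝕜) where
  carrier := {y | ∃ L : ℝ≥0, ∀ p : ℕ × ℝ≥0, L ≤ p.2 → y p = 0}
  add_mem' := by
    rintro x y ⟨L, hL⟩ ⟨M, hM⟩
    refine ⟨max L M, fun p hp => ?_⟩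
    rw [ZeroAtInftyContinuousMap.add_apply, hL p ((le_max_left _ _).trans hp),
      hM p ((le_max_right _ _).trans hp), add_zero]
  zero_mem' := ⟨0, fun p _ => rfl⟩
  smul_mem' := by
    rintro c x ⟨L, hL⟩
    exact ⟨L, fun p hp => by rw [ZeroAtInftyContinuousMap.smul_apply, hL p hp, smul_zero]⟩

/-- The cut-off. -/
noncomputable def cut (L : ℝ) (y : E 𝕜) : E 𝕜 where
  toFun p := ((max 0 (min 1 (L + 1 - p.2)) : ℝ) : 𝕜) * y p
  continuous_toFun := by
    refine (RCLike.continuous_ofReal.comp ?_).mul (map_continuous y)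
    fun_prop
  zero_at_infty' := by
    have h1 : Tendsto (fun p => ‖y p‖) (cocompact (ℕ × ℝ≥0)) (𝓝 0) := by
      simpa using (zero_at_infty y).norm
    refine squeeze_zero_norm (fun p => ?_) h1
    rw [norm_mul, RCLike.norm_ofReal, abs_of_nonneg (le_max_left _ _)]
    refine mul_le_of_le_one_left (norm_nonneg _) (max_le zero_le_one (min_le_left _ _))

lemma exists_large (y : E 𝕜) {ε : ℝ} (hε : 0 < ε) :
    ∃ L : ℝ, 0 ≤ L ∧ ∀ p : ℕ × ℝ≥0, L ≤ p.2 → ‖y p‖ < ε := by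
  have h1 : Tendsto (fun p => ‖y p‖) (cocompact (ℕ × ℝ≥0)) (𝓝 0) := by
    simpa using (zero_at_infty y).norm
  have h2 := h1.eventually (gt_mem_nhds hε)
  rw [Filter.Eventually, Filter.mem_cocompact] at h2
  obtain ⟨C, hC, hsub⟩ := h2
  obtain ⟨r, hr⟩ := hC.isBounded.subset_closedBall (0, 0)
  refine ⟨max r 0 + 1, by positivity, fun p hp => ?_⟩
  have hnot : p ∉ C := by
    intro hpC
    have h3 := hr hpC
    rw [Metric.mem_closedBall, Prod.dist_eq] at h3
    have h4 := (le_max_right _ _).trans h3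
    rw [NNReal.dist_eq] at h4
    simp only [NNReal.coe_zero, sub_zero] at h4
    rw [abs_of_nonneg p.2.coe_nonneg] at h4
    have := le_max_left r 0
    linarith
  exact hsub hnot

lemma dense_X0 : Dense (X0 𝕜 : Set (E 𝕜)) := by
  rw [Metric.dense_iff]
  intro y ε hε
  obtain ⟨L, hL0, hL⟩ := exists_large y (ε := ε / 2) (by linarith)
  refine ⟨cut L y, ?_, ?_⟩
  · rw [Metric.mem_ball, dist_eq_norm]
    refine lt_of_le_of_lt (norm_le_of (C := ε / 2) (by linarith) fun p => ?_) (by linarith)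
    rw [ZeroAtInftyContinuousMap.sub_apply]
    change ‖((max 0 (min 1 (L + 1 - p.2)) : ℝ) : 𝕜) * y p - y p‖ ≤ ε / 2
    rcases le_or_gt L p.2 with h | h
    · have e : ((max 0 (min 1 (L + 1 - p.2)) : ℝ) : 𝕜) * y p - y p =
          ((max 0 (min 1 (L + 1 - p.2)) - 1 : ℝ) : 𝕜) * y p := by push_cast; ring
      rw [e, norm_mul, RCLike.norm_ofReal]
      have h1 : |max 0 (min 1 (L + 1 - (p.2 : ℝ))) - 1| ≤ 1 := by
        rw [abs_le]
        have h2 : max 0 (min 1 (L + 1 - (p.2 : ℝ))) ≤ 1 := max_le zero_le_one (min_le_left _ _)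
        have h3 : 0 ≤ max 0 (min 1 (L + 1 - (p.2 : ℝ))) := le_max_left _ _
        constructor <;> linarith
      calc _ ≤ 1 * ‖y p‖ := by gcongr
        _ ≤ ε / 2 := by rw [one_mul]; exact (hL p h).le
    · have h1 : max 0 (min 1 (L + 1 - (p.2 : ℝ))) = 1 := by
        rw [min_eq_left (by linarith), max_eq_right zero_le_one]
      rw [h1]; simp; linarith
  · refine ⟨⟨L + 1, by positivity⟩, fun p hp => ?_⟩
    have hp' : L + 1 ≤ p.2 := hp
    change ((max 0 (min 1 (L + 1 - p.2)) : ℝ) : 𝕜) * y p = 0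
    have h1 : max 0 (min 1 (L + 1 - (p.2 : ℝ))) = 0 := by
      refine max_eq_left ?_
      exact (min_le_right _ _).trans (by linarith)
    rw [h1]; simp

lemma TT_X0 {y : E 𝕜} (hy : y ∈ X0 𝕜) : ∃ L : ℝ≥0, ∀ t, L ≤ t → TT 𝕜 t y = 0 := by
  obtain ⟨L, hL⟩ := hy
  refine ⟨L, fun t ht => ?_⟩
  ext p
  rw [TT_apply, hL (sh t p) (by simp only [sh]; exact ht.trans (le_add_of_nonneg_left zero_le)),
    mul_zero]
  rfl

/-- All orbits tend to zero along the quiet periods. -/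
lemma quiet (y : E 𝕜) {ε : ℝ} (hε : 0 < ε) : ∃ n₀ : ℕ, ∀ n ≥ n₀, ∀ t : ℝ≥0, aa n ≤ t →
    (t : ℝ) ≤ bb n → ‖TT 𝕜 t y‖ < ε := by
  obtain ⟨y₀, hy₀, hy₀'⟩ := Metric.dense_iff.1 (dense_X0 (𝕜 := 𝕜)) y (ε / Real.exp 1) (by positivity)
  obtain ⟨L, hL⟩ := TT_X0 hy₀'
  obtain ⟨n₀, hn₀⟩ := exists_nat_ge (L : ℝ)
  refine ⟨n₀, fun n hn t h1 h2 => ?_⟩
  have h3 : L ≤ t := by
    have h4 : (n₀ : ℝ) ≤ n := by exact_mod_cast hn
    have := n_le_aa n
    exact_mod_cast (hn₀.trans h4).trans (this.trans h1)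
  have h4 : TT 𝕜 t y = TT 𝕜 t (y - y₀) := by rw [map_sub, hL t h3, sub_zero]
  rw [h4]
  rw [Metric.mem_ball, dist_comm, dist_eq_norm] at hy₀
  calc ‖TT 𝕜 t (y - y₀)‖ ≤ Real.exp 1 * ‖y - y₀‖ := norm_TT_quiet h1 h2 _
    _ < Real.exp 1 * (ε / Real.exp 1) := by gcongr
    _ = ε := by have := Real.exp_pos 1; field_simp

/-- The irregular vector. -/
noncomputable def zz (𝕜 : Type) [RCLike 𝕜] : E 𝕜 where
  toFun p := ((Real.exp (-p.1) * max 0 (1 - |(p.2 : ℝ) - N p.1|) : ℝ) : 𝕜)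
  continuous_toFun := by
    refine RCLike.continuous_ofReal.comp (continuous_prod_of_discrete_left.2 fun i => ?_)
    fun_prop
  zero_at_infty' := by
    rw [Metric.tendsto_nhds]
    intro ε hε
    obtain ⟨n, hn⟩ : ∃ n : ℕ, Real.exp (-n) < ε := by
      have : Tendsto (fun n : ℕ => Real.exp (-(n : ℝ))) atTop (𝓝 0) :=
        Real.tendsto_exp_neg_atTop_nhds_zero.comp tendsto_natCast_atTop_atTop
      exact (this.eventually (gt_mem_nhds hε)).exists
    rw [Filter.Eventually, Filter.mem_cocompact]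
    refine ⟨Metric.closedBall (0, 0) (max n (N n + 1)), isCompact_closedBall _ _, ?_⟩
    intro p hp
    rw [Set.mem_compl_iff, Metric.mem_closedBall, not_le, Prod.dist_eq] at hp
    simp only [Set.mem_ofPred_eq]
    rw [dist_zero_right, RCLike.norm_ofReal, abs_mul, abs_of_pos (Real.exp_pos _),
      abs_of_nonneg (le_max_left _ _)]
    rcases le_or_gt p.1 n with h | h
    · -- the first coordinate is small, so the second is large
      have h1 : max (n : ℝ) (N n + 1) < p.2 := by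
        rcases lt_max_iff.1 hp with h2 | h2
        · exfalso
          rw [Nat.dist_eq] at h2
          simp only [Nat.cast_zero, sub_zero] at h2
          rw [abs_of_nonneg (by positivity)] at h2
          have h3 : (p.1 : ℝ) ≤ n := by exact_mod_cast h
          have := (le_max_left (n : ℝ) (N n + 1)).trans_lt h2
          linarith
        · rw [NNReal.dist_eq] at h2
          simp only [NNReal.coe_zero, sub_zero] at h2
          rwa [abs_of_nonneg p.2.coe_nonneg] at h2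
      have h2 : N n + 1 < p.2 := (le_max_right _ _).trans_lt h1
      have h3 : N p.1 ≤ N n := N_mono h
      have h4 : max 0 (1 - |(p.2 : ℝ) - N p.1|) = 0 := by
        refine max_eq_left ?_
        rw [abs_of_nonneg (by linarith)]
        linarith
      rw [h4, mul_zero]; exact hε
    · have h1 : max 0 (1 - |(p.2 : ℝ) - N p.1|) ≤ 1 := by
        refine max_le zero_le_one ?_
        have := abs_nonneg ((p.2 : ℝ) - N p.1)
        linarith
      calc Real.exp (-p.1) * max 0 (1 - |(p.2 : ℝ) - N p.1|) ≤ Real.exp (-p.1) * 1 := by gcongr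
        _ ≤ Real.exp (-n) := by
            rw [mul_one]; refine Real.exp_le_exp.2 ?_
            have : (n : ℝ) ≤ p.1 := by exact_mod_cast h.le
            linarith
        _ < ε := hn

lemma zz_apply (p : ℕ × ℝ≥0) :
    zz 𝕜 p = ((Real.exp (-p.1) * max 0 (1 - |(p.2 : ℝ) - N p.1|) : ℝ) : 𝕜) := rfl

lemma loud {i : ℕ} {t : ℝ≥0} (h1 : K i ≤ t) (h2 : (t : ℝ) ≤ N i) : Real.exp i ≤ ‖TT 𝕜 t (zz 𝕜)‖ := by
  obtain ⟨u, hu⟩ : ∃ u : ℝ≥0, (u : ℝ) = N i - t := ⟨⟨N i - t, by linarith⟩, rfl⟩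
  set p : ℕ × ℝ≥0 := (i, u) with hp
  refine le_trans ?_ (norm_apply_le _ p)
  rw [norm_TT_apply, zz_apply, RCLike.norm_ofReal]
  have hp1 : (sh t p).1 = i := rfl
  have hp2 : (((sh t p).2 : ℝ≥0) : ℝ) = N i := by
    simp only [sh, hp, NNReal.coe_add, hu]; ring
  rw [hp1, hp2, sub_self, abs_zero, sub_zero, max_eq_right zero_le_one, mul_one,
    abs_of_pos (Real.exp_pos _)]
  have hm : mul t p = Real.exp (2 * i) := by
    unfold mul
    have e1 : (p.2 : ℝ) + t = N i := by simp only [hp, hu]; ring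
    have e2 : Lam p.1 p.2 = 0 := Lam_zero_left _ (by simp only [hp, hu]; linarith)
    rw [e2, e1]
    simp only [hp]
    rw [Lam_N, sub_zero]
  rw [hm, ← Real.exp_add]
  refine Real.exp_le_exp.2 ?_
  linarith

lemma zz_ne_zero : zz 𝕜 ≠ 0 := by
  intro h
  have h1 := loud (𝕜 := 𝕜) (i := 0) (t := 0) (by unfold K; simp) (by unfold N; simpa using (J_pos 0).le)
  rw [h, map_zero, norm_zero] at h1
  have := Real.exp_pos ((0 : ℕ) : ℝ)
  linarith

end Pool.Agent.X86.DC
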